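import Mathlib

open Finset

namespace Pool.Agent.Results.MP_cc6759_lc.PiAdicAverage

/-! ### Definitions of the problem -/

/-- The size function of case (i), `R = ℤ[π]`, `π² = -N`: for `x = u + v π` it is
`log_N (u² + N v²)`.  (`phiImag 0 = 0` is a harmless convention: nonzero elements have size
`≥ 0`, and the connection element is never zero.) -/
noncomputable def phiImag (N : ℕ) {R : Type*} [CommRing R] (b : Module.Basis (Fin 2) ℤ R)
    (x : R) : ℝ :=
  Real.logb N ((b.repr x 0 : ℝ) ^ 2 + N * (b.repr x 1 : ℝ) ^ 2)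

/-- The size function of case (ii), `R = ℤ[π]`, `π^d = N`: for `x = ∑ u_i π^i` it is the maximum
of `d log_N |u_i| + i` over the `i` with `u_i ≠ 0`.  (`phiRoot 0 = 0` is a harmless
convention.) -/
noncomputable def phiRoot (N d : ℕ) {R : Type*} [CommRing R] (b : Module.Basis (Fin d) ℤ R)
    (x : R) : ℝ :=
  sSup {y : ℝ | ∃ i : Fin d, b.repr x i ≠ 0 ∧ y = d * Real.logb N |(b.repr x i : ℝ)| + (i : ℕ)}

/-- `Outputs N π f g s`: the infinite sequence `s` over `{0, …, N-1}` is the output of an AFSR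
with connection element `g` and associated `π`-adic number `f / g`: `g` is invertible modulo `π`
and `g * ∑ s_i π^i = f` in the `π`-adic completion (as congruences modulo all powers `π^k`). -/
def Outputs {R : Type*} [CommRing R] (N : ℕ) (π f g : R) (s : ℕ → Fin N) : Prop :=
  (∃ h : R, π ∣ g * h - 1) ∧
    ∀ k : ℕ, π ^ k ∣ g * (∑ i ∈ range k, ((s i : ℕ) : R) * π ^ i) - f

/-- The `π`-adic complexity (with respect to the size function `φ`) of the finite sequence
`a_0, …, a_{n-1}`: the least size `max (φ f) (φ g)` of an AFSR whose first `n` outputs are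
`a_0, …, a_{n-1}`. -/
noncomputable def finComplexity {R : Type*} [CommRing R] (N n : ℕ) (π : R) (φ : R → ℝ)
    (a : Fin n → Fin N) : ℝ :=
  sInf {x : ℝ | ∃ (f g : R) (s : ℕ → Fin N), Outputs N π f g s ∧ (∀ i : Fin n, s i = a i) ∧
    x = max (φ f) (φ g)}

/-- `E_n^fin`: the average of the `π`-adic complexity over all `N^n` sequences of length `n`. -/
noncomputable def avgFin {R : Type*} [CommRing R] (N : ℕ) (π : R) (φ : R → ℝ) (n : ℕ) : ℝ :=
  (∑ a : Fin n → Fin N, finComplexity N n π φ a) / (N : ℝ) ^ n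

/-! ### The ring `ℤ[π]` with `π^(e+1) = ± N` -/

/-- Common hypotheses of the two cases. -/
structure Good {R : Type*} [CommRing R] (N e : ℕ) (ε : ℤ) (π : R)
    (b : Module.Basis (Fin (e + 1)) ℤ R) : Prop where
  hN : 2 ≤ N
  hε : |ε| = 1
  hb : ∀ i, b i = π ^ (i : ℕ)
  hπ : π ^ (e + 1) = ((ε * N : ℤ) : R)

/-- the positive real `N^(1/(e+1))` -/
noncomputable def q (N e : ℕ) : ℝ := (N : ℝ) ^ ((1 : ℝ) / ((e + 1 : ℕ) : ℝ))

lemma q_pow {N e : ℕ} : (q N e) ^ (e + 1) = (N : ℝ) := by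
  unfold q
  rw [← Real.rpow_natCast, ← Real.rpow_mul (Nat.cast_nonneg N)]
  rw [one_div, inv_mul_cancel₀ (by positivity), Real.rpow_one]

lemma one_lt_q {N e : ℕ} (hN : 2 ≤ N) : 1 < q N e := by
  unfold q
  apply Real.one_lt_rpow
  · exact_mod_cast hN
  · positivity

/-- The weighted sup norm. -/
noncomputable def nu {R : Type*} [CommRing R] (N e : ℕ) (b : Module.Basis (Fin (e + 1)) ℤ R)
    (x : R) : ℝ :=
  ‖(fun i : Fin (e + 1) => (b.repr x i : ℝ) * (q N e) ^ (i : ℕ))‖

section nu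
variable {R : Type*} [CommRing R] {N e : ℕ} {b : Module.Basis (Fin (e + 1)) ℤ R}

lemma nu_nonneg (x : R) : 0 ≤ nu N e b x := norm_nonneg _

lemma nu_zero : nu N e b 0 = 0 := by
  unfold nu; simp [Pi.norm_def]

lemma nu_le_iff (hN : 2 ≤ N) {x : R} {r : ℝ} (hr : 0 ≤ r) :
    nu N e b x ≤ r ↔ ∀ i, |(b.repr x i : ℝ)| * (q N e) ^ (i : ℕ) ≤ r := by
  have hq : 0 < q N e := lt_trans one_pos (one_lt_q hN)
  unfold nu
  rw [pi_norm_le_iff_of_nonneg hr]
  refine forall_congr' (fun i => ?_)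
  rw [Real.norm_eq_abs, abs_mul, abs_of_pos (pow_pos hq _)]

lemma coord_le_nu (hN : 2 ≤ N) (x : R) (i : Fin (e + 1)) :
    |(b.repr x i : ℝ)| * (q N e) ^ (i : ℕ) ≤ nu N e b x :=
  (nu_le_iff hN (nu_nonneg x)).mp le_rfl i

lemma nu_add (x y : R) : nu N e b (x + y) ≤ nu N e b x + nu N e b y := by
  unfold nu
  refine le_trans (le_of_eq ?_) (norm_add_le _ _)
  congr 1
  funext i
  simp [add_mul]

lemma nu_neg (x : R) : nu N e b (-x) = nu N e b x := by
  unfold nu
  rw [← norm_neg]
  congr 1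
  funext i
  simp

lemma nu_sub (x y : R) : nu N e b (x - y) ≤ nu N e b x + nu N e b y := by
  rw [sub_eq_add_neg, ← nu_neg y]
  exact nu_add _ _

lemma nu_intCast_mul (m : ℤ) (x : R) : nu N e b ((m : R) * x) = |(m : ℝ)| * nu N e b x := by
  unfold nu
  rw [← Real.norm_eq_abs, ← norm_smul]
  congr 1
  funext i
  have : b.repr ((m : R) * x) i = m * b.repr x i := by
    rw [← zsmul_eq_mul, map_zsmul]; simp
  rw [this]
  simp [mul_assoc]

lemma one_le_nu (hN : 2 ≤ N) {x : R} (hx : x ≠ 0) : 1 ≤ nu N e b x := by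
  have hq : 1 < q N e := one_lt_q hN
  obtain ⟨i, hi⟩ : ∃ i, b.repr x i ≠ 0 := by
    by_contra hcon
    push Not at hcon
    apply hx
    apply b.repr.injective
    ext i
    simp [hcon i]
  refine le_trans ?_ (coord_le_nu hN x i)
  have h1 : (1 : ℝ) ≤ |(b.repr x i : ℝ)| := by
    have := Int.one_le_abs hi
    exact_mod_cast this
  have h2 : (1 : ℝ) ≤ (q N e) ^ (i : ℕ) := one_le_pow₀ hq.le
  nlinarith

lemma nu_sum {ι : Type*} (s : Finset ι) (x : ι → R) :
    nu N e b (∑ i ∈ s, x i) ≤ ∑ i ∈ s, nu N e b (x i) := by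
  classical
  induction s using Finset.induction_on with
  | empty => simp [nu_zero]
  | insert a s ha ih =>
    rw [Finset.sum_insert ha, Finset.sum_insert ha]
    exact (nu_add _ _).trans (by linarith)

end nu

section mul
variable {R : Type*} [CommRing R] {N e : ℕ} {ε : ℤ} {π : R}
  {b : Module.Basis (Fin (e + 1)) ℤ R}

lemma repr_pi_mul (h : Good N e ε π b) (x : R) :
    (b.repr (π * x) : Fin (e + 1) → ℤ) =
      Fin.cons (ε * N * b.repr x (Fin.last e)) (fun i : Fin e => b.repr x (Fin.castSucc i)) := by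
  have hx : x = ∑ i, b.repr x i • b i := (b.sum_repr x).symm
  have h1 : π * x = ∑ i, (Fin.cons (ε * N * b.repr x (Fin.last e))
      (fun i : Fin e => b.repr x (Fin.castSucc i)) : Fin (e + 1) → ℤ) i • b i := by
    rw [Fin.sum_univ_succ]
    conv_lhs => rw [hx, Fin.sum_univ_castSucc]
    rw [mul_add, add_comm, Finset.mul_sum]
    congr 1
    · rw [Fin.cons_zero, h.hb, h.hb]
      simp only [Fin.val_last, Fin.val_zero, pow_zero, zsmul_eq_mul, mul_one]
      have : π * ((b.repr x (Fin.last e) : R) * π ^ e) =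
          (b.repr x (Fin.last e) : R) * π ^ (e + 1) := by ring
      rw [this, h.hπ]
      push_cast
      ring
    · refine Finset.sum_congr rfl (fun i _ => ?_)
      rw [Fin.cons_succ, h.hb, h.hb]
      simp only [Fin.val_castSucc, Fin.val_succ, zsmul_eq_mul]
      ring
  rw [h1, b.repr_sum_self]

lemma nu_pi_mul (h : Good N e ε π b) (x : R) : nu N e b (π * x) = q N e * nu N e b x := by
  have hN := h.hN
  have hq : 1 < q N e := one_lt_q hN
  have hq0 : 0 < q N e := by linarith
  have hr := repr_pi_mul h x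
  apply le_antisymm
  · rw [nu_le_iff hN (by have := nu_nonneg (N := N) (b := b) x; positivity)]
    intro i
    refine Fin.cases ?_ (fun j => ?_) i
    · have h0 : b.repr (π * x) 0 = ε * N * b.repr x (Fin.last e) := by
        rw [hr, Fin.cons_zero]
      rw [h0]
      have h1 := coord_le_nu (N := N) (b := b) hN x (Fin.last e)
      have hε : |(ε : ℝ)| = 1 := by exact_mod_cast h.hε
      push_cast
      rw [abs_mul, abs_mul, hε, one_mul, Fin.val_zero, pow_zero, mul_one]
      rw [Fin.val_last] at h1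
      have h2 : |(N : ℝ)| = q N e * (q N e) ^ e := by
        rw [abs_of_nonneg (Nat.cast_nonneg N), ← q_pow (N := N) (e := e)]
        rw [pow_succ]; ring
      rw [h2]
      nlinarith
    · have h0 : b.repr (π * x) j.succ = b.repr x (Fin.castSucc j) := by
        rw [hr, Fin.cons_succ]
      rw [h0]
      have h1 := coord_le_nu (N := N) (b := b) hN x (Fin.castSucc j)
      rw [Fin.val_castSucc] at h1
      rw [Fin.val_succ, pow_succ]
      nlinarith
  · rw [mul_comm, ← le_div_iff₀ hq0]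
    rw [nu_le_iff hN (by have := nu_nonneg (N := N) (b := b) (π * x); positivity)]
    intro i
    rw [le_div_iff₀ hq0]
    refine Fin.lastCases ?_ (fun j => ?_) i
    · have h0 : b.repr (π * x) 0 = ε * N * b.repr x (Fin.last e) := by
        rw [hr, Fin.cons_zero]
      have h1 := coord_le_nu (N := N) (b := b) hN (π * x) 0
      rw [h0] at h1
      have hε : |(ε : ℝ)| = 1 := by exact_mod_cast h.hε
      push_cast at h1
      rw [abs_mul, abs_mul, hε, one_mul, Fin.val_zero, pow_zero, mul_one] at h1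
      have h2 : |(N : ℝ)| = q N e * (q N e) ^ e := by
        rw [abs_of_nonneg (Nat.cast_nonneg N), ← q_pow (N := N) (e := e)]
        rw [pow_succ]; ring
      rw [h2] at h1
      rw [Fin.val_last]
      linarith
    · have h0 : b.repr (π * x) j.succ = b.repr x (Fin.castSucc j) := by
        rw [hr, Fin.cons_succ]
      have h1 := coord_le_nu (N := N) (b := b) hN (π * x) j.succ
      rw [h0, Fin.val_succ, pow_succ] at h1
      rw [Fin.val_castSucc]
      linarith

lemma nu_pow_mul (h : Good N e ε π b) (k : ℕ) (x : R) :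
    nu N e b (π ^ k * x) = (q N e) ^ k * nu N e b x := by
  induction k with
  | zero => simp
  | succ k ih =>
    rw [pow_succ', mul_assoc, nu_pi_mul h, ih, pow_succ']
    ring

lemma nu_mul_le (h : Good N e ε π b) (x y : R) :
    nu N e b (x * y) ≤ (e + 1) * (nu N e b x * nu N e b y) := by
  have hN := h.hN
  have hx : x = ∑ i, b.repr x i • b i := (b.sum_repr x).symm
  conv_lhs => rw [hx, Finset.sum_mul]
  refine (nu_sum _ _).trans ?_
  have h1 : ∀ i ∈ (Finset.univ : Finset (Fin (e + 1))),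
      nu N e b (b.repr x i • b i * y) ≤ nu N e b x * nu N e b y := by
    intro i _
    have : b.repr x i • b i * y = ((b.repr x i : ℤ) : R) * (π ^ (i : ℕ) * y) := by
      rw [h.hb, zsmul_eq_mul]; ring
    rw [this, nu_intCast_mul, nu_pow_mul h, ← mul_assoc]
    exact mul_le_mul_of_nonneg_right (coord_le_nu hN x i) (nu_nonneg y)
  refine (Finset.sum_le_sum h1).trans (le_of_eq ?_)
  simp

lemma pi_dvd_iff (h : Good N e ε π b) (x : R) : π ∣ x ↔ (N : ℤ) ∣ b.repr x 0 := by
  constructor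
  · rintro ⟨y, rfl⟩
    have : b.repr (π * y) 0 = ε * N * b.repr y (Fin.last e) := by
      rw [repr_pi_mul h, Fin.cons_zero]
    rw [this]
    exact ⟨ε * b.repr y (Fin.last e), by ring⟩
  · rintro ⟨m, hm⟩
    have hε : ε * ε = 1 := by
      have := h.hε
      rcases abs_eq (by norm_num : (0:ℤ) ≤ 1) |>.mp this with h | h <;> rw [h] <;> norm_num
    -- x = u_0 + π * (rest)
    have hx : x = ∑ i, b.repr x i • b i := (b.sum_repr x).symm
    rw [hx, Fin.sum_univ_succ]
    apply dvd_add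
    · rw [hm, h.hb]
      refine ⟨((ε * m : ℤ) : R) * π ^ e, ?_⟩
      have : π * (((ε * m : ℤ) : R) * π ^ e) = ((ε * m : ℤ) : R) * π ^ (e + 1) := by ring
      rw [this, h.hπ, ← Int.cast_mul]
      simp only [Fin.val_zero, pow_zero, zsmul_eq_mul, mul_one]
      congr 1
      calc (N : ℤ) * m = (ε * ε) * (N * m) := by rw [hε]; ring
        _ = _ := by ring
    · apply Finset.dvd_sum
      intro i _
      rw [h.hb, Fin.val_succ, zsmul_eq_mul, pow_succ]
      exact ⟨(b.repr x i.succ : R) * π ^ (i : ℕ), by ring⟩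

end mul

/-! ### Balls -/

section ball
variable {R : Type*} [CommRing R] {N e : ℕ} {b : Module.Basis (Fin (e + 1)) ℤ R}

/-- the finite ball of radius `r` -/
noncomputable def ball (N e : ℕ) (b : Module.Basis (Fin (e + 1)) ℤ R) (r : ℝ) : Finset R :=
  (Fintype.piFinset fun i : Fin (e + 1) =>
    Finset.Icc (-⌊r / (q N e) ^ (i : ℕ)⌋) ⌊r / (q N e) ^ (i : ℕ)⌋).map
      b.equivFun.symm.toEquiv.toEmbedding

lemma mem_ball (hN : 2 ≤ N) {r : ℝ} (hr : 0 ≤ r) {x : R} : x ∈ ball N e b r ↔ nu N e b x ≤ r := by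
  have hq : 0 < q N e := lt_trans one_pos (one_lt_q hN)
  rw [nu_le_iff hN hr]
  unfold ball
  rw [Finset.mem_map_equiv, Fintype.mem_piFinset]
  refine forall_congr' (fun i => ?_)
  have h1 : (b.equivFun.symm.toEquiv.symm x) i = b.repr x i := rfl
  rw [h1, Finset.mem_Icc, ← abs_le, Int.le_floor, le_div_iff₀ (pow_pos hq _)]
  push_cast
  rfl

lemma card_ball (r : ℝ) : (ball N e b r).card =
    ∏ i : Fin (e + 1), (Finset.Icc (-⌊r / (q N e) ^ (i : ℕ)⌋) ⌊r / (q N e) ^ (i : ℕ)⌋).card := by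
  unfold ball
  rw [Finset.card_map, Fintype.card_piFinset]

lemma card_ball_le (hN : 2 ≤ N) {r : ℝ} (hr : 1 ≤ r) :
    ((ball N e b r).card : ℝ) ≤ (3 * r) ^ (e + 1) := by
  have hq : 1 < q N e := one_lt_q hN
  rw [card_ball, Nat.cast_prod]
  have h1 : (3 * r) ^ (e + 1) = ∏ _i : Fin (e + 1), (3 * r) := by simp
  rw [h1]
  apply Finset.prod_le_prod
  · intro i _; positivity
  · intro i _
    rw [Int.card_Icc]
    have h2 : (1 : ℝ) ≤ (q N e) ^ (i : ℕ) := one_le_pow₀ hq.le
    have h3 : r / (q N e) ^ (i : ℕ) ≤ r := div_le_self (by linarith) h2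
    have h4 : (⌊r / (q N e) ^ (i : ℕ)⌋ : ℝ) ≤ r := (Int.floor_le _).trans h3
    have h5 : 0 ≤ ⌊r / (q N e) ^ (i : ℕ)⌋ := Int.floor_nonneg.mpr (by positivity)
    have h6 : ((⌊r / (q N e) ^ (i : ℕ)⌋ + 1 - -⌊r / (q N e) ^ (i : ℕ)⌋).toNat : ℝ) =
        2 * (⌊r / (q N e) ^ (i : ℕ)⌋ : ℝ) + 1 := by
      have : ((⌊r / (q N e) ^ (i : ℕ)⌋ + 1 - -⌊r / (q N e) ^ (i : ℕ)⌋).toNat : ℤ) =
        2 * (⌊r / (q N e) ^ (i : ℕ)⌋ : ℤ) + 1 := by omega
      exact_mod_cast this
    rw [h6]
    linarith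

lemma le_card_ball (hN : 2 ≤ N) {r : ℝ} (hr : 0 ≤ r) :
    (r / (q N e) ^ e) ^ (e + 1) ≤ ((ball N e b r).card : ℝ) := by
  have hq : 1 < q N e := one_lt_q hN
  rw [card_ball, Nat.cast_prod]
  have h1 : (r / (q N e) ^ e) ^ (e + 1) = ∏ _i : Fin (e + 1), (r / (q N e) ^ e) := by
    rw [Finset.prod_const, Finset.card_univ, Fintype.card_fin]
  rw [h1]
  apply Finset.prod_le_prod
  · intro i _; positivity
  · intro i _
    rw [Int.card_Icc]
    have h2 : (q N e) ^ (i : ℕ) ≤ (q N e) ^ e := pow_le_pow_right₀ hq.le (by omega)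
    have h3 : r / (q N e) ^ e ≤ r / (q N e) ^ (i : ℕ) :=
      div_le_div_of_nonneg_left hr (by positivity) h2
    have h4 := Int.lt_floor_add_one (r / (q N e) ^ (i : ℕ))
    have h5 : 0 ≤ ⌊r / (q N e) ^ (i : ℕ)⌋ := Int.floor_nonneg.mpr (by positivity)
    have h5' : (0 : ℝ) ≤ (⌊r / (q N e) ^ (i : ℕ)⌋ : ℝ) := by exact_mod_cast h5
    have h6 : ((⌊r / (q N e) ^ (i : ℕ)⌋ + 1 - -⌊r / (q N e) ^ (i : ℕ)⌋).toNat : ℝ) =
        2 * (⌊r / (q N e) ^ (i : ℕ)⌋ : ℝ) + 1 := by
      have : ((⌊r / (q N e) ^ (i : ℕ)⌋ + 1 - -⌊r / (q N e) ^ (i : ℕ)⌋).toNat : ℤ) =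
        2 * (⌊r / (q N e) ^ (i : ℕ)⌋ : ℤ) + 1 := by omega
      exact_mod_cast this
    rw [h6]
    linarith

/-- minimal vectors exist -/
lemma exists_min (hN : 2 ≤ N) (P : R → R → Prop) (hP : ∃ f g, P f g) :
    ∃ f g, P f g ∧ ∀ f' g', P f' g' →
      max (nu N e b f) (nu N e b g) ≤ max (nu N e b f') (nu N e b g') := by
  classical
  obtain ⟨f₀, g₀, h₀⟩ := hP
  set r := max (nu N e b f₀) (nu N e b g₀) with hr
  have hr0 : 0 ≤ r := le_max_of_le_left (nu_nonneg _)
  set S : Finset (R × R) := ((ball N e b r) ×ˢ (ball N e b r)).filter (fun v => P v.1 v.2) with hS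
  have hne : S.Nonempty := by
    refine ⟨(f₀, g₀), ?_⟩
    rw [hS, Finset.mem_filter, Finset.mem_product]
    exact ⟨⟨(mem_ball hN hr0).mpr (le_max_left _ _), (mem_ball hN hr0).mpr (le_max_right _ _)⟩, h₀⟩
  obtain ⟨v, hv, hmin⟩ := Finset.exists_min_image S
    (fun v => max (nu N e b v.1) (nu N e b v.2)) hne
  refine ⟨v.1, v.2, (Finset.mem_filter.mp hv).2, fun f' g' h' => ?_⟩
  by_cases hle : max (nu N e b f') (nu N e b g') ≤ r
  · apply hmin (f', g')
    rw [hS, Finset.mem_filter, Finset.mem_product]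
    exact ⟨⟨(mem_ball hN hr0).mpr ((le_max_left _ _).trans hle),
      (mem_ball hN hr0).mpr ((le_max_right _ _).trans hle)⟩, h'⟩
  · push Not at hle
    have h1 := (Finset.mem_filter.mp hv).1
    rw [Finset.mem_product] at h1
    exact (max_le ((mem_ball hN hr0).mp h1.1) ((mem_ball hN hr0).mp h1.2)).trans hle.le

/-- rounding `t x` -/
noncomputable def rnd (b : Module.Basis (Fin (e + 1)) ℤ R) (t : ℝ) (x : R) : R :=
  b.equivFun.symm (fun i => ⌊t * (b.repr x i : ℝ)⌋)

lemma repr_rnd (t : ℝ) (x : R) (i : Fin (e + 1)) :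
    b.repr (rnd b t x) i = ⌊t * (b.repr x i : ℝ)⌋ := by
  unfold rnd
  have := b.equivFun.apply_symm_apply (fun i => ⌊t * (b.repr x i : ℝ)⌋)
  exact congrFun this i

lemma nu_rnd_le (hN : 2 ≤ N) {t : ℝ} (ht : 0 ≤ t) (x : R) :
    nu N e b (rnd b t x) ≤ t * nu N e b x + (q N e) ^ e := by
  have hq : 1 < q N e := one_lt_q hN
  have hn := nu_nonneg (N := N) (b := b) x
  rw [nu_le_iff hN (by positivity)]
  intro i
  rw [repr_rnd]
  have h1 := coord_le_nu (N := N) (b := b) hN x i
  have h2 : (q N e) ^ (i : ℕ) ≤ (q N e) ^ e := pow_le_pow_right₀ hq.le (by omega)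
  have h3 : |(⌊t * (b.repr x i : ℝ)⌋ : ℝ)| ≤ t * |(b.repr x i : ℝ)| + 1 := by
    have h7 : |t * (b.repr x i : ℝ)| = t * |(b.repr x i : ℝ)| := by
      rw [abs_mul, abs_of_nonneg ht]
    rw [← h7]
    have h4 := Int.floor_le (t * (b.repr x i : ℝ))
    have h5 := Int.lt_floor_add_one (t * (b.repr x i : ℝ))
    rw [abs_le]
    constructor
    · have := neg_abs_le (t * (b.repr x i : ℝ)); linarith
    · have := le_abs_self (t * (b.repr x i : ℝ)); linarith
  have h6 : 0 < (q N e) ^ (i : ℕ) := by positivity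
  calc |(⌊t * (b.repr x i : ℝ)⌋ : ℝ)| * (q N e) ^ (i : ℕ)
      ≤ (t * |(b.repr x i : ℝ)| + 1) * (q N e) ^ (i : ℕ) :=
        mul_le_mul_of_nonneg_right h3 h6.le
    _ = t * (|(b.repr x i : ℝ)| * (q N e) ^ (i : ℕ)) + (q N e) ^ (i : ℕ) := by ring
    _ ≤ t * nu N e b x + (q N e) ^ e := by nlinarith

lemma nu_sub_rnd_le (hN : 2 ≤ N) {t : ℝ} (ht : t ≤ 1) (x : R) :
    nu N e b (x - rnd b t x) ≤ (1 - t) * nu N e b x + (q N e) ^ e := by
  have hq : 1 < q N e := one_lt_q hN
  have hn := nu_nonneg (N := N) (b := b) x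
  have ht' : 0 ≤ 1 - t := by linarith
  rw [nu_le_iff hN (by positivity)]
  intro i
  have h0 : b.repr (x - rnd b t x) i = b.repr x i - ⌊t * (b.repr x i : ℝ)⌋ := by
    rw [map_sub, Finsupp.sub_apply, repr_rnd]
  rw [h0]
  have h1 := coord_le_nu (N := N) (b := b) hN x i
  have h2 : (q N e) ^ (i : ℕ) ≤ (q N e) ^ e := pow_le_pow_right₀ hq.le (by omega)
  have h3 : |((b.repr x i - ⌊t * (b.repr x i : ℝ)⌋ : ℤ) : ℝ)| ≤
      (1 - t) * |(b.repr x i : ℝ)| + 1 := by
    have h7 : |(1 - t) * (b.repr x i : ℝ)| = (1 - t) * |(b.repr x i : ℝ)| := by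
      rw [abs_mul, abs_of_nonneg ht']
    rw [← h7]
    have h4 := Int.floor_le (t * (b.repr x i : ℝ))
    have h5 := Int.lt_floor_add_one (t * (b.repr x i : ℝ))
    push_cast
    rw [abs_le]
    constructor
    · have := neg_abs_le ((1 - t) * (b.repr x i : ℝ)); linarith
    · have := le_abs_self ((1 - t) * (b.repr x i : ℝ)); linarith
  have h6 : 0 < (q N e) ^ (i : ℕ) := by positivity
  calc |((b.repr x i - ⌊t * (b.repr x i : ℝ)⌋ : ℤ) : ℝ)| * (q N e) ^ (i : ℕ)
      ≤ ((1 - t) * |(b.repr x i : ℝ)| + 1) * (q N e) ^ (i : ℕ) :=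
        mul_le_mul_of_nonneg_right h3 h6.le
    _ = (1 - t) * (|(b.repr x i : ℝ)| * (q N e) ^ (i : ℕ)) + (q N e) ^ (i : ℕ) := by ring
    _ ≤ (1 - t) * nu N e b x + (q N e) ^ e := by nlinarith

end ball

/-! ### Digits -/

section digits
variable {R : Type*} [CommRing R] {N e : ℕ} {ε : ℤ} {π : R}
  {b : Module.Basis (Fin (e + 1)) ℤ R}

/-- value of a finite digit string -/
def val (N : ℕ) (π : R) (n : ℕ) (a : Fin n → Fin N) : R :=
  ∑ i : Fin n, ((a i : ℕ) : R) * π ^ (i : ℕ)

lemma sum_range_eq_val (n : ℕ) (s : ℕ → Fin N) :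
    (∑ i ∈ range n, ((s i : ℕ) : R) * π ^ i) = val N π n (fun i => s i) := by
  unfold val
  rw [Finset.sum_range]

lemma repr_intCast (h : Good N e ε π b) (m : ℤ) : b.repr ((m : ℤ) : R) 0 = m := by
  have h1 : ((m : ℤ) : R) = m • b 0 := by
    rw [h.hb]; simp
  rw [h1, map_zsmul, b.repr_self]
  simp

lemma pi_dvd_intCast (h : Good N e ε π b) (m : ℤ) : π ∣ ((m : ℤ) : R) ↔ (N : ℤ) ∣ m := by
  rw [pi_dvd_iff h, repr_intCast h]

lemma exists_digit (h : Good N e ε π b) (x : R) : ∃ (c : Fin N) (y : R), x = ((c : ℕ) : R) + π * y := by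
  have hN := h.hN
  set m := b.repr x 0 with hm
  have h0 : (0 : ℤ) < N := by exact_mod_cast (by omega : 0 < N)
  have h1 := Int.emod_nonneg m h0.ne'
  have h2 := Int.emod_lt_of_pos m h0
  have h3 : (m % N).toNat < N := by omega
  have h4 : π ∣ x - (((m % (N : ℤ)) : ℤ) : R) := by
    rw [pi_dvd_iff h, map_sub, Finsupp.sub_apply, repr_intCast h, ← hm]
    exact Int.dvd_self_sub_emod
  obtain ⟨y, hy⟩ := h4
  refine ⟨⟨(m % N).toNat, h3⟩, y, ?_⟩
  have h5 : (((m % N).toNat : ℕ) : R) = (((m % (N : ℤ)) : ℤ) : R) := by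
    have : ((m % N).toNat : ℤ) = m % N := Int.toNat_of_nonneg h1
    rw [← this]; push_cast; rfl
  show x = (((m % N).toNat : ℕ) : R) + π * y
  rw [h5, ← hy]; ring

lemma digit_unique (h : Good N e ε π b) {c c' : Fin N} (hd : π ∣ ((c : ℕ) : R) - ((c' : ℕ) : R)) :
    c = c' := by
  have h1 : ((c : ℕ) : R) - ((c' : ℕ) : R) = (((c : ℕ) : ℤ) - ((c' : ℕ) : ℤ) : ℤ) := by
    push_cast; rfl
  rw [h1, pi_dvd_intCast h] at hd
  have h2 := Int.eq_zero_of_abs_lt_dvd hd (by
    have := c.2; have := c'.2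
    rw [abs_lt]; omega)
  apply Fin.ext; omega

lemma val_cons (n : ℕ) (c : Fin N) (a : Fin n → Fin N) :
    val N π (n + 1) (Fin.cons c a) = ((c : ℕ) : R) + π * val N π n a := by
  unfold val
  rw [Fin.sum_univ_succ, Finset.mul_sum]
  congr 1
  · simp
  · refine Finset.sum_congr rfl (fun i _ => ?_)
    rw [Fin.cons_succ, Fin.val_succ, pow_succ]; ring

lemma exists_res (h : Good N e ε π b) (n : ℕ) (x : R) :
    ∃ a : Fin n → Fin N, π ^ n ∣ x - val N π n a := by
  induction n generalizing x with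
  | zero => exact ⟨Fin.elim0, by simp⟩
  | succ n ih =>
    obtain ⟨c, y, hy⟩ := exists_digit h x
    obtain ⟨a, z, hz⟩ := ih y
    refine ⟨Fin.cons c a, z, ?_⟩
    rw [val_cons, hy, pow_succ', mul_assoc, ← hz]
    ring

variable [IsDomain R]

omit [IsDomain R] in
lemma pi_ne_zero (h : Good N e ε π b) : π ≠ 0 := by
  intro h0
  have h1 : π ^ (e + 1) = 0 := by rw [h0]; simp
  rw [h.hπ] at h1
  have h2 := repr_intCast h (ε * N)
  rw [h1] at h2
  simp only [map_zero, Finsupp.coe_zero, Pi.zero_apply] at h2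
  have hN := h.hN
  have hε := h.hε
  have h3 : |ε * (N : ℤ)| = N := by rw [abs_mul, hε, one_mul]; simp
  rw [← h2] at h3
  simp at h3
  omega

lemma val_unique (h : Good N e ε π b) (n : ℕ) {a a' : Fin n → Fin N}
    (hd : π ^ n ∣ val N π n a - val N π n a') : a = a' := by
  induction n with
  | zero => exact Subsingleton.elim _ _
  | succ n ih =>
    have e1 : a = Fin.cons (a 0) (fun i => a i.succ) := (Fin.cons_self_tail a).symm
    have e2 : a' = Fin.cons (a' 0) (fun i => a' i.succ) := (Fin.cons_self_tail a').symm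
    rw [e1, e2, val_cons, val_cons] at hd
    have h0 : a 0 = a' 0 := by
      apply digit_unique h
      have h1 : π ∣ ((a 0 : ℕ) : R) + π * val N π n (fun i => a i.succ) -
          (((a' 0 : ℕ) : R) + π * val N π n (fun i => a' i.succ)) :=
        (dvd_pow_self π (Nat.succ_ne_zero n)).trans hd
      have h2 : ((a 0 : ℕ) : R) - ((a' 0 : ℕ) : R) =
        (((a 0 : ℕ) : R) + π * val N π n (fun i => a i.succ) -
          (((a' 0 : ℕ) : R) + π * val N π n (fun i => a' i.succ))) -
          π * (val N π n (fun i => a i.succ) - val N π n (fun i => a' i.succ)) := by ring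
      rw [h2]
      exact dvd_sub h1 (dvd_mul_right _ _)
    rw [h0] at hd
    have h3 : ((a' 0 : ℕ) : R) + π * val N π n (fun i => a i.succ) -
          (((a' 0 : ℕ) : R) + π * val N π n (fun i => a' i.succ)) =
          π * (val N π n (fun i => a i.succ) - val N π n (fun i => a' i.succ)) := by ring
    rw [h3, pow_succ', mul_dvd_mul_iff_left (pi_ne_zero h)] at hd
    have h4 := ih hd
    rw [e1, e2, h0, h4]

/-- residue modulo `π^n` -/
noncomputable def res (h : Good N e ε π b) (n : ℕ) (x : R) : Fin n → Fin N :=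
  (exists_res h n x).choose

omit [IsDomain R] in
lemma res_spec (h : Good N e ε π b) (n : ℕ) (x : R) : π ^ n ∣ x - val N π n (res h n x) :=
  (exists_res h n x).choose_spec

lemma res_eq_iff (h : Good N e ε π b) (n : ℕ) (x y : R) :
    res h n x = res h n y ↔ π ^ n ∣ x - y := by
  have hx := res_spec h n x
  have hy := res_spec h n y
  constructor
  · intro he
    have := dvd_sub hx hy
    rw [he] at this
    refine this.trans (dvd_of_eq ?_)
    ring
  · intro hd
    apply val_unique h n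
    have := dvd_sub (dvd_add hd hy) hx
    refine this.trans (dvd_of_eq ?_)
    ring

/-! ### Extension of a finite solution to an infinite output sequence -/

omit [IsDomain R] in
lemma exists_outputs (h : Good N e ε π b) {n : ℕ} {a : Fin n → Fin N} {f g : R}
    (hg : ∃ u : R, π ∣ g * u - 1) (hd : π ^ n ∣ g * val N π n a - f) :
    ∃ s : ℕ → Fin N, Outputs N π f g s ∧ ∀ i : Fin n, s i = a i := by
  classical
  obtain ⟨u, hu⟩ := hg
  have hstep : ∀ r : R, ∃ (c : Fin N) (r' : R), r = g * ((c : ℕ) : R) + π * r' := by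
    intro r
    obtain ⟨c, y, hy⟩ := exists_digit h (u * r)
    obtain ⟨z, hz⟩ := hu
    refine ⟨c, g * y - z * r, ?_⟩
    have e1 : ((c : ℕ) : R) = u * r - π * y := by rw [hy]; ring
    rw [e1]
    have e2 : g * u = π * z + 1 := by rw [← hz]; ring
    calc r = (π * z + 1) * r - π * z * r := by ring
      _ = g * u * r - π * z * r := by rw [e2]
      _ = _ := by ring
  choose c r' hr using hstep
  obtain ⟨r₀, hr₀⟩ := hd
  set st : ℕ → R := fun k => (r')^[k] (-r₀) with hst
  set s : ℕ → Fin N := fun i => if hi : i < n then a ⟨i, hi⟩ else c (st (i - n)) with hs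
  have hsa : ∀ i : Fin n, s i = a i := by
    intro i
    rw [hs]
    simp only [i.2, dif_pos]
  have hval : (∑ i ∈ range n, ((s i : ℕ) : R) * π ^ i) = val N π n a := by
    rw [sum_range_eq_val]
    congr 1
    funext i
    exact hsa i
  have key : ∀ k : ℕ, f = g * (∑ i ∈ range (n + k), ((s i : ℕ) : R) * π ^ i) + π ^ (n + k) * st k := by
    intro k
    induction k with
    | zero =>
      rw [add_zero, hval]
      have : st 0 = -r₀ := rfl
      rw [this, mul_neg, ← hr₀]
      ring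
    | succ k ih =>
      rw [← add_assoc, Finset.sum_range_succ]
      have h1 : s (n + k) = c (st k) := by
        rw [hs]
        simp only [show ¬ (n + k < n) by omega, dif_neg, not_false_eq_true]
        congr 2
        omega
      have h2 : st (k + 1) = r' (st k) := by
        rw [hst]
        exact Function.iterate_succ_apply' _ _ _
      rw [h1, h2]
      have h3 := hr (st k)
      calc f = g * (∑ i ∈ range (n + k), ((s i : ℕ) : R) * π ^ i) + π ^ (n + k) * st k := ih
        _ = g * (∑ i ∈ range (n + k), ((s i : ℕ) : R) * π ^ i) +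
            π ^ (n + k) * (g * ((c (st k) : ℕ) : R) + π * r' (st k)) := by rw [← h3]
        _ = _ := by ring
  refine ⟨s, ⟨⟨u, hu⟩, ?_⟩, hsa⟩
  intro m
  have h1 := key m
  have h2 : π ^ m ∣ (∑ i ∈ range (n + m), ((s i : ℕ) : R) * π ^ i) -
      ∑ i ∈ range m, ((s i : ℕ) : R) * π ^ i := by
    rw [add_comm n m, Finset.sum_range_add, add_sub_cancel_left]
    apply Finset.dvd_sum
    intro i _
    rw [pow_add]
    exact ⟨((s (m + i) : ℕ) : R) * π ^ i, by ring⟩
  obtain ⟨w, hw⟩ := h2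
  refine ⟨-(g * w) - π ^ n * st m, ?_⟩
  have h3 : (∑ i ∈ range m, ((s i : ℕ) : R) * π ^ i) =
      (∑ i ∈ range (n + m), ((s i : ℕ) : R) * π ^ i) - π ^ m * w := by
    rw [← hw]; ring
  rw [h3]
  rw [pow_add] at h1
  linear_combination -h1

omit [IsDomain R] in
lemma valid_of_outputs {n : ℕ} {a : Fin n → Fin N} {f g : R} {s : ℕ → Fin N}
    (hs : Outputs N π f g s) (hsa : ∀ i : Fin n, s i = a i) :
    (∃ u : R, π ∣ g * u - 1) ∧ π ^ n ∣ g * val N π n a - f := by
  refine ⟨hs.1, ?_⟩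
  have := hs.2 n
  rw [sum_range_eq_val] at this
  have h2 : (fun i : Fin n => s i) = a := by funext i; exact hsa i
  rw [h2] at this
  exact this

end digits

/-! ### Division with remainder -/

section division
variable {R : Type*} [CommRing R] [IsDomain R] {N e : ℕ} {ε : ℤ} {π : R}
  {b : Module.Basis (Fin (e + 1)) ℤ R}

/-- the constant of division with remainder -/
noncomputable def KD (N e : ℕ) : ℝ := (e + 1) * (q N e) ^ e

lemma exists_rem (h : Good N e ε π b) {g : R} (hg : g ≠ 0) (y : R) :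
    ∃ r : R, g ∣ y - r ∧ nu N e b r ≤ KD N e * nu N e b g := by
  classical
  have hN := h.hN
  have hq : 1 < q N e := one_lt_q hN
  -- a nonzero integer multiple of `g`
  obtain ⟨m, hm0, k, hk⟩ : ∃ m : ℤ, m ≠ 0 ∧ g ∣ ((m : ℤ) : R) := by
    have : Module.Finite ℤ R := Module.Finite.of_basis b
    have hint : IsIntegral ℤ g := IsIntegral.of_finite ℤ g
    have hI : Ideal.span {g} ≠ ⊥ := by
      rw [Ne, Ideal.span_singleton_eq_bot]; exact hg
    have hc := Ideal.comap_ne_bot_of_integral_mem (R := ℤ) (I := Ideal.span {g}) hg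
      (Ideal.mem_span_singleton_self g) hint
    obtain ⟨m, hm, hm0⟩ := Submodule.exists_mem_ne_zero_of_ne_bot hc
    refine ⟨m, hm0, ?_⟩
    rw [Ideal.mem_comap, Ideal.mem_span_singleton] at hm
    simpa using hm
  -- z = k y, m y = g z
  set z := k * y with hz
  have hmz : ((m : ℤ) : R) * y = g * z := by rw [hk, hz]; ring
  set q' : R := b.equivFun.symm (fun i => round ((b.repr z i : ℝ) / m)) with hq'
  have hq'c : ∀ i, b.repr q' i = round ((b.repr z i : ℝ) / m) := by
    intro i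
    have := b.equivFun.apply_symm_apply (fun i => round ((b.repr z i : ℝ) / m))
    exact congrFun this i
  set t := z - (m : R) * q' with ht
  have hmR : (m : ℝ) ≠ 0 := by exact_mod_cast hm0
  have hmpos : 0 < |(m : ℝ)| := abs_pos.mpr hmR
  have htc : nu N e b t ≤ |(m : ℝ)| * (q N e) ^ e := by
    rw [nu_le_iff hN (by positivity)]
    intro i
    have h1 : b.repr t i = b.repr z i - m * round ((b.repr z i : ℝ) / m) := by
      rw [ht, map_sub, Finsupp.sub_apply, ← zsmul_eq_mul, map_zsmul, Finsupp.smul_apply, hq'c]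
      simp
    rw [h1]
    have h2 : (((b.repr z i - m * round ((b.repr z i : ℝ) / m) : ℤ)) : ℝ) =
        m * ((b.repr z i : ℝ) / m - round ((b.repr z i : ℝ) / m)) := by
      push_cast
      field_simp
    rw [h2, abs_mul]
    have h3 := abs_sub_round ((b.repr z i : ℝ) / m)
    have h4 : (q N e) ^ (i : ℕ) ≤ (q N e) ^ e := pow_le_pow_right₀ hq.le (by omega)
    have h5 : 0 < (q N e) ^ (i : ℕ) := by positivity
    calc |(m : ℝ)| * |(b.repr z i : ℝ) / m - round ((b.repr z i : ℝ) / m)| * (q N e) ^ (i : ℕ)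
        ≤ |(m : ℝ)| * 1 * (q N e) ^ (i : ℕ) := by
          apply mul_le_mul_of_nonneg_right _ h5.le
          apply mul_le_mul_of_nonneg_left _ hmpos.le
          linarith
      _ ≤ |(m : ℝ)| * (q N e) ^ e := by
          rw [mul_one]
          exact mul_le_mul_of_nonneg_left h4 hmpos.le
  refine ⟨y - g * q', ⟨q', by ring⟩, ?_⟩
  have h1 : ((m : ℤ) : R) * (y - g * q') = g * t := by
    rw [mul_sub, hmz, ht]; ring
  have h2 : |(m : ℝ)| * nu N e b (y - g * q') ≤ (e + 1) * (nu N e b g * nu N e b t) := by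
    rw [← nu_intCast_mul, h1]
    exact nu_mul_le h _ _
  have h3 : (e + 1) * (nu N e b g * nu N e b t) ≤
      |(m : ℝ)| * (KD N e * nu N e b g) := by
    unfold KD
    have h4 := nu_nonneg (N := N) (b := b) g
    calc (e + 1) * (nu N e b g * nu N e b t) ≤ (e + 1) * (nu N e b g * (|(m : ℝ)| * (q N e) ^ e)) := by
          apply mul_le_mul_of_nonneg_left _ (by positivity)
          exact mul_le_mul_of_nonneg_left htc h4
      _ = _ := by ring
  exact le_of_mul_le_mul_left (h2.trans h3) hmpos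

/-! ### The chain argument: a short valid pair exists unless there is a very short vector -/

/-- the constant of the chain argument -/
noncomputable def KT (N e : ℕ) : ℝ :=
  (2 * (q N e) ^ e + 1 / 2) * (4 * (q N e) ^ e) ^ (2 * (e + 1)) * N

lemma exists_small_valid (h : Good N e ε π b) (n : ℕ) (α : R) (μ : ℝ) (hμ : 1 ≤ μ)
    (hmin : ∀ f g : R, (f ≠ 0 ∨ g ≠ 0) → π ^ n ∣ g * α - f →
      μ ≤ max (nu N e b f) (nu N e b g)) :
    ∃ f g : R, π ^ n ∣ g * α - f ∧ π ∣ g - 1 ∧
      max (nu N e b f) (nu N e b g) * μ ^ (2 * e + 1) ≤ KT N e * (N : ℝ) ^ n := by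
  classical
  have hN := h.hN
  have hq : 1 < q N e := one_lt_q hN
  obtain ⟨f, g, ⟨hd, hg1⟩, hmin'⟩ := exists_min (b := b) hN
    (fun f g => π ^ n ∣ g * α - f ∧ π ∣ g - 1) ⟨α, 1, by simp, by simp⟩
  refine ⟨f, g, hd, hg1, ?_⟩
  set D := max (nu N e b f) (nu N e b g) with hD
  set δ := (q N e) ^ e with hδ
  have hδ1 : 1 ≤ δ := one_le_pow₀ hq.le
  have hfD : nu N e b f ≤ D := le_max_left _ _
  have hgD : nu N e b g ≤ D := le_max_right _ _
  have hg0 : g ≠ 0 := by
    rintro rfl
    have h1 : π ∣ ((-1 : ℤ) : R) := by simpa using hg1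
    rw [pi_dvd_intCast h] at h1
    have h2 := Int.le_of_dvd (by norm_num) ((dvd_neg (a := (N : ℤ)) (b := 1)).mp (by simpa using h1))
    omega
  have hD1 : 1 ≤ D := (one_le_nu hN hg0).trans hgD
  set s := 2 * δ + μ / 2 with hs
  have hs0 : 0 < s := by positivity
  set m : ℕ := ⌈D / s⌉₊ - 1 with hm
  have hceil : 0 < ⌈D / s⌉₊ := Nat.ceil_pos.mpr (by positivity)
  have hm1 : D / s ≤ (m : ℝ) + 1 := by
    have h1 := Nat.le_ceil (D / s)
    have h2 : ((m + 1 : ℕ) : ℝ) = (⌈D / s⌉₊ : ℝ) := by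
      congr 1; omega
    push_cast at h2
    rw [h2]; exact h1
  have hm2 : (m : ℝ) < D / s := by
    have h1 := Nat.ceil_lt_add_one (show 0 ≤ D / s by positivity)
    have h2 : ((m + 1 : ℕ) : ℝ) = (⌈D / s⌉₊ : ℝ) := by
      congr 1; omega
    push_cast at h2
    linarith
  have hms : (m : ℝ) * s < D := by
    rw [lt_div_iff₀ hs0] at hm2; exact hm2
  set r := μ / 4 with hr
  have hr0 : 0 ≤ r := by positivity
  -- the points of the chain
  set vf : ℕ → R := fun i => rnd b ((i : ℝ) / m) f with hvf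
  set vg : ℕ → R := fun i => rnd b ((i : ℝ) / m) g with hvg
  set F : ℕ × R × R → (Fin n → Fin N) × (Fin 1 → Fin N) := fun p =>
    (res h n ((vg p.1 + p.2.2) * α - (vf p.1 + p.2.1)), res h 1 (vg p.1 + p.2.2)) with hF
  set S : Finset (ℕ × R × R) := (range (m + 1)) ×ˢ ((ball N e b r) ×ˢ (ball N e b r)) with hS
  -- the key separation
  have hsep : ∀ i j : ℕ, i < j → j ≤ m → ∀ x y x' y' : R, nu N e b x ≤ r → nu N e b y ≤ r →
      nu N e b x' ≤ r → nu N e b y' ≤ r →
      π ^ n ∣ ((vg i + y) * α - (vf i + x)) - ((vg j + y') * α - (vf j + x')) →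
      π ^ 1 ∣ (vg i + y) - (vg j + y') → False := by
    intro i j hij hjm x y x' y' hx hy hx' hy' h1 h2
    have hm0 : (0 : ℝ) < m := by exact_mod_cast (by omega : 0 < m)
    set G := (vg i + y) - (vg j + y') with hG
    set F' := (vf i + x) - (vf j + x') with hF'
    have h3 : π ^ n ∣ (g + G) * α - (f + F') := by
      refine (dvd_add hd h1).trans (dvd_of_eq ?_)
      rw [hG, hF']; ring
    have h4 : π ∣ (g + G) - 1 := by
      rw [pow_one] at h2
      refine (dvd_add hg1 h2).trans (dvd_of_eq ?_)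
      ring
    have h5 := hmin' (f + F') (g + G) ⟨h3, h4⟩
    have hi1 : (0 : ℝ) ≤ (i : ℝ) / m := by positivity
    have hj1 : (j : ℝ) / m ≤ 1 := by
      rw [div_le_one hm0]; exact_mod_cast hjm
    have hij' : (1 : ℝ) ≤ (j : ℝ) - i := by
      have : (i : ℝ) + 1 ≤ j := by exact_mod_cast hij
      linarith
    have hDm : s < D / m := by
      rw [lt_div_iff₀ hm0, mul_comm]; exact hms
    have hbound : ∀ z w w' : R, nu N e b z ≤ D → nu N e b w ≤ r → nu N e b w' ≤ r →
        nu N e b (z + ((rnd b ((i : ℝ) / m) z + w) - (rnd b ((j : ℝ) / m) z + w'))) < D := by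
      intro z w w' hz hw hw'
      have e1 : z + ((rnd b ((i : ℝ) / m) z + w) - (rnd b ((j : ℝ) / m) z + w')) =
          (z - rnd b ((j : ℝ) / m) z) + (rnd b ((i : ℝ) / m) z) + (w - w') := by ring
      rw [e1]
      have h6 := nu_sub_rnd_le (N := N) (b := b) hN hj1 z
      have h7 := nu_rnd_le (N := N) (b := b) hN hi1 z
      have h8 := nu_sub (N := N) (b := b) w w'
      have h9 := nu_add (N := N) (b := b) ((z - rnd b ((j : ℝ) / m) z) + (rnd b ((i : ℝ) / m) z)) (w - w')
      have h10 := nu_add (N := N) (b := b) (z - rnd b ((j : ℝ) / m) z) (rnd b ((i : ℝ) / m) z)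
      have hz0 := nu_nonneg (N := N) (b := b) z
      have h11 : nu N e b ((z - rnd b ((j : ℝ) / m) z) + (rnd b ((i : ℝ) / m) z) + (w - w')) ≤
          (1 - ((j : ℝ) - i) / m) * nu N e b z + 2 * δ + 2 * r := by
        have e2 : (1 - ((j : ℝ) - i) / m) * nu N e b z = (1 - (j : ℝ) / m) * nu N e b z +
          (i : ℝ) / m * nu N e b z := by ring
        rw [e2]
        linarith
      have h12 : (1 : ℝ) / m ≤ ((j : ℝ) - i) / m := by
        apply div_le_div_of_nonneg_right hij' hm0.le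
      have h13 : (0 : ℝ) ≤ 1 - ((j : ℝ) - i) / m := by
        have h14 : ((j : ℝ) - i) / m ≤ (j : ℝ) / m := by
          apply div_le_div_of_nonneg_right _ hm0.le
          have : (0 : ℝ) ≤ i := Nat.cast_nonneg i
          linarith
        linarith
      have h15 : (1 - ((j : ℝ) - i) / m) * nu N e b z ≤ (1 - ((j : ℝ) - i) / m) * D :=
        mul_le_mul_of_nonneg_left hz h13
      have h16 : (1 - ((j : ℝ) - i) / m) * D ≤ D - D / m := by
        have : D / m = (1 / m) * D := by ring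
        rw [this]
        nlinarith
      have h17 : 2 * δ + 2 * r = s := by rw [hs, hr]; ring
      linarith
    have h18 := hbound f x x' hfD hx hx'
    have h19 := hbound g y y' hgD hy hy'
    have h20 : max (nu N e b (f + F')) (nu N e b (g + G)) < D := max_lt h18 h19
    exact absurd h5 (not_le.mpr h20)
  have hinj : Set.InjOn F (S : Set (ℕ × R × R)) := by
    rintro ⟨i, x, y⟩ hi ⟨j, x', y'⟩ hj hFe
    rw [Finset.mem_coe, hS, Finset.mem_product, Finset.mem_product, Finset.mem_range,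
      mem_ball hN hr0, mem_ball hN hr0] at hi hj
    obtain ⟨hi1, hx, hy⟩ := hi
    obtain ⟨hj1, hx', hy'⟩ := hj
    simp only at hi1 hx hy hj1 hx' hy'
    rw [hF] at hFe
    simp only [Prod.mk.injEq] at hFe
    obtain ⟨h1, h2⟩ := hFe
    rw [res_eq_iff] at h1 h2
    rcases lt_trichotomy i j with hij | hij | hij
    · exact (hsep i j hij (by omega) x y x' y' hx hy hx' hy' h1 h2).elim
    · subst hij
      have h3 : π ^ n ∣ (y - y') * α - (x - x') := by
        refine h1.trans (dvd_of_eq ?_); ring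
      by_contra hne
      have h4 : (x - x') ≠ 0 ∨ (y - y') ≠ 0 := by
        by_contra hcon
        push Not at hcon
        apply hne
        rw [sub_eq_zero.mp hcon.1, sub_eq_zero.mp hcon.2]
      have h5 := hmin _ _ h4 h3
      have h6 := nu_sub (N := N) (b := b) x x'
      have h7 := nu_sub (N := N) (b := b) y y'
      have h8 : max (nu N e b (x - x')) (nu N e b (y - y')) ≤ 2 * r := max_le (by linarith) (by linarith)
      have h9 : 2 * r = μ / 2 := by rw [hr]; ring
      linarith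
    · refine (hsep j i hij (by omega) x' y' x y hx' hy' hx hy ?_ ?_).elim
      · exact (dvd_sub_comm).mp h1
      · exact (dvd_sub_comm).mp h2
  have hcard : S.card ≤ Fintype.card ((Fin n → Fin N) × (Fin 1 → Fin N)) := by
    rw [← Finset.card_univ]
    exact Finset.card_le_card_of_injOn F (fun _ _ => Finset.mem_coe.mpr (Finset.mem_univ _)) hinj
  have hcS : S.card = (m + 1) * ((ball N e b r).card * (ball N e b r).card) := by
    rw [hS, Finset.card_product, Finset.card_product, Finset.card_range]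
  have hcT : Fintype.card ((Fin n → Fin N) × (Fin 1 → Fin N)) = N ^ n * N := by
    simp
  rw [hcS, hcT] at hcard
  have hcard' : ((m : ℝ) + 1) * (((ball N e b r).card : ℝ) * ((ball N e b r).card : ℝ)) ≤
      (N : ℝ) ^ n * N := by exact_mod_cast hcard
  have hlow := le_card_ball (N := N) (b := b) hN hr0
  rw [← hδ] at hlow
  set c := ((ball N e b r).card : ℝ) with hc
  have hw0 : 0 ≤ (r / δ) ^ (e + 1) := by positivity
  have h1 : D / s * ((r / δ) ^ (e + 1) * (r / δ) ^ (e + 1)) ≤ (N : ℝ) ^ n * N := by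
    refine le_trans ?_ hcard'
    apply mul_le_mul hm1 _ (by positivity) (by positivity)
    exact mul_le_mul hlow hlow hw0 (hw0.trans hlow)
  have hδ0 : 0 < δ := by linarith
  have h2 : (r / δ) ^ (e + 1) * (r / δ) ^ (e + 1) = μ ^ (2 * (e + 1)) / (4 * δ) ^ (2 * (e + 1)) := by
    rw [← pow_add, ← two_mul, hr, div_div, div_pow]
  rw [h2] at h1
  have h3 : D * μ ^ (2 * (e + 1)) ≤ s * (4 * δ) ^ (2 * (e + 1)) * ((N : ℝ) ^ n * N) := by
    have h4 : D / s * (μ ^ (2 * (e + 1)) / (4 * δ) ^ (2 * (e + 1))) =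
        D * μ ^ (2 * (e + 1)) / (s * (4 * δ) ^ (2 * (e + 1))) := by
      rw [div_mul_div_comm]
    rw [h4, div_le_iff₀ (by positivity)] at h1
    linarith
  have h5 : s ≤ (2 * δ + 1 / 2) * μ := by
    rw [hs]; nlinarith
  have h6 : D * μ ^ (2 * (e + 1)) ≤ ((2 * δ + 1 / 2) * μ) * (4 * δ) ^ (2 * (e + 1)) * ((N : ℝ) ^ n * N) := by
    refine h3.trans ?_
    have : 0 ≤ (4 * δ) ^ (2 * (e + 1)) * ((N : ℝ) ^ n * N) := by positivity
    nlinarith
  have h7 : D * μ ^ (2 * (e + 1)) = (D * μ ^ (2 * e + 1)) * μ := by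
    rw [show 2 * (e + 1) = (2 * e + 1) + 1 by ring, pow_succ]; ring
  have h8 : ((2 * δ + 1 / 2) * μ) * (4 * δ) ^ (2 * (e + 1)) * ((N : ℝ) ^ n * N) =
      (KT N e * (N : ℝ) ^ n) * μ := by
    unfold KT; rw [← hδ]; ring
  rw [h7, h8] at h6
  exact le_of_mul_le_mul_right h6 (by linarith)

/-! ### Counting the digit strings that have a very short vector -/

lemma one_le_KD (hN : 2 ≤ N) : 1 ≤ KD N e := by
  have hq : 1 < q N e := one_lt_q hN
  unfold KD
  have h1 : (1 : ℝ) ≤ (q N e) ^ e := one_le_pow₀ hq.le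
  have h2 : (1 : ℝ) ≤ (e : ℝ) + 1 := by
    have : (0 : ℝ) ≤ e := Nat.cast_nonneg e
    linarith
  nlinarith

lemma card_fixed (h : Good N e ε π b) (n : ℕ) {X : ℝ} (hX : 1 ≤ X) {g : R} (hg : g ≠ 0)
    (hgX : nu N e b g ≤ X) (A : Finset (Fin n → Fin N))
    (hA : ∀ a ∈ A, ∃ f : R, nu N e b f ≤ X ∧ π ^ n ∣ g * val N π n a - f) :
    (A.card : ℝ) ≤ (3 * ((KD N e + 2) * X)) ^ (e + 1) := by
  classical
  have hN := h.hN
  have hKD := one_le_KD (e := e) hN
  -- choose `f` and `k`
  have hex : ∀ a : Fin n → Fin N, ∃ f k : R, a ∈ A →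
      (nu N e b f ≤ X ∧ g * val N π n a - f = π ^ n * k) := by
    intro a
    by_cases ha : a ∈ A
    · obtain ⟨f, hf, k, hk⟩ := hA a ha
      exact ⟨f, k, fun _ => ⟨hf, hk⟩⟩
    · exact ⟨0, 0, fun h' => absurd h' ha⟩
  choose f k hfk using hex
  -- canonical representatives modulo `g`
  have hrep : ∃ rep : R → R, (∀ y, g ∣ y - rep y) ∧ (∀ y, nu N e b (rep y) ≤ KD N e * nu N e b g) ∧
      ∀ y y', g ∣ y - y' → rep y = rep y' := by
    have h1 : ∀ c : R ⧸ Ideal.span {g}, ∃ r : R, g ∣ Quotient.out c - r ∧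
        nu N e b r ≤ KD N e * nu N e b g := fun c => exists_rem h hg _
    choose ρ hρ using h1
    refine ⟨fun y => ρ (Ideal.Quotient.mk (Ideal.span {g}) y), fun y => ?_, fun y => (hρ _).2,
      fun y y' hyy => ?_⟩
    · have h2 := (hρ (Ideal.Quotient.mk (Ideal.span {g}) y)).1
      have h3 : g ∣ y - Quotient.out (Ideal.Quotient.mk (Ideal.span {g}) y) := by
        rw [← Ideal.mem_span_singleton, ← Ideal.Quotient.eq]
        exact (Ideal.Quotient.mk_out _).symm
      refine (dvd_add h3 h2).trans (dvd_of_eq ?_)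
      ring
    · have h2 : Ideal.Quotient.mk (Ideal.span {g}) y = Ideal.Quotient.mk (Ideal.span {g}) y' := by
        rw [Ideal.Quotient.eq, Ideal.mem_span_singleton]; exact hyy
      show ρ _ = ρ _
      rw [h2]
  obtain ⟨rep, hrep1, hrep2, hrep3⟩ := hrep
  choose m hm using fun a : Fin n → Fin N => hrep1 (k a)
  -- base point of each fibre
  set a₀ : R → (Fin n → Fin N) := fun τ =>
    if hτ : ∃ a ∈ A, rep (k a) = τ then hτ.choose else fun _ => ⟨0, by omega⟩ with ha₀
  have ha₀spec : ∀ a ∈ A, a₀ (rep (k a)) ∈ A ∧ rep (k (a₀ (rep (k a)))) = rep (k a) := by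
    intro a ha
    have hτ : ∃ a' ∈ A, rep (k a') = rep (k a) := ⟨a, ha, rfl⟩
    rw [ha₀]
    simp only [dif_pos hτ]
    exact hτ.choose_spec
  have hy : ∀ a ∈ A, g * (val N π n a - π ^ n * m a) = f a + π ^ n * rep (k a) := by
    intro a ha
    have h1 := (hfk a ha).2
    have h2 := hm a
    linear_combination h1 + π ^ n * h2
  set F : (Fin n → Fin N) → R := fun a => rep (k a) + (f a - f (a₀ (rep (k a)))) with hF
  have hFmem : ∀ a ∈ A, F a ∈ ball N e b ((KD N e + 2) * X) := by
    intro a ha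
    rw [mem_ball hN (by positivity)]
    have h1 := nu_add (N := N) (b := b) (rep (k a)) (f a - f (a₀ (rep (k a))))
    have h2 := nu_sub (N := N) (b := b) (f a) (f (a₀ (rep (k a))))
    have h3 := (hfk a ha).1
    have h4 := (hfk _ (ha₀spec a ha).1).1
    have h5 := hrep2 (k a)
    have h6 : KD N e * nu N e b g ≤ KD N e * X := mul_le_mul_of_nonneg_left hgX (by linarith)
    calc nu N e b (F a) ≤ KD N e * X + (X + X) := by
          show nu N e b (rep (k a) + (f a - f (a₀ (rep (k a))))) ≤ _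
          linarith
      _ = _ := by ring
  have hinj : Set.InjOn F (A : Set (Fin n → Fin N)) := by
    intro a ha a' ha' hFa
    rw [Finset.mem_coe] at ha ha'
    have hdiv : ∀ a ∈ A, g ∣ f a - f (a₀ (rep (k a))) := by
      intro a ha
      have h1 := hy a ha
      obtain ⟨h2, h3⟩ := ha₀spec a ha
      have h4 := hy _ h2
      rw [h3] at h4
      refine ⟨(val N π n a - π ^ n * m a) -
        (val N π n (a₀ (rep (k a))) - π ^ n * m (a₀ (rep (k a)))), ?_⟩
      linear_combination h4 - h1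
    have h1 : g ∣ rep (k a) - rep (k a') := by
      have h2 := hdiv a ha
      have h3 := hdiv a' ha'
      have h4 : rep (k a) - rep (k a') = (f a' - f (a₀ (rep (k a')))) - (f a - f (a₀ (rep (k a)))) := by
        have : F a = F a' := hFa
        simp only [hF] at this
        linear_combination this
      rw [h4]
      exact dvd_sub h3 h2
    have h2 : rep (k a) = rep (k a') := by
      have h3 : g ∣ k a - k a' := by
        refine (dvd_add (dvd_sub (hrep1 (k a)) (hrep1 (k a'))) h1).trans (dvd_of_eq ?_)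
        ring
      exact hrep3 _ _ h3
    have h3 : f a = f a' := by
      have : F a = F a' := hFa
      simp only [hF] at this
      rw [h2] at this
      linear_combination this
    have h4 := hy a ha
    have h5 := hy a' ha'
    rw [h3, h2, ← h5] at h4
    have h6 := mul_left_cancel₀ hg h4
    apply val_unique h n
    exact ⟨m a - m a', by linear_combination h6⟩
  have hcard : A.card ≤ (ball N e b ((KD N e + 2) * X)).card :=
    Finset.card_le_card_of_injOn F (fun a ha => hFmem a ha) hinj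
  have h1 : (1 : ℝ) ≤ (KD N e + 2) * X := by nlinarith
  calc (A.card : ℝ) ≤ ((ball N e b ((KD N e + 2) * X)).card : ℝ) := by exact_mod_cast hcard
    _ ≤ _ := card_ball_le hN h1

/-- the counting constant -/
noncomputable def KC (N e : ℕ) : ℝ := 3 ^ (e + 1) * (3 * (KD N e + 2)) ^ (e + 1)

lemma card_short (h : Good N e ε π b) (n : ℕ) {X : ℝ} (hX : 1 ≤ X) (A : Finset (Fin n → Fin N))
    (hA : ∀ a ∈ A, ∃ f g : R, (f ≠ 0 ∨ g ≠ 0) ∧ π ^ n ∣ g * val N π n a - f ∧
      nu N e b f ≤ X ∧ nu N e b g ≤ X) :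
    (A.card : ℝ) ≤ KC N e * X ^ (2 * (e + 1)) := by
  classical
  have hN := h.hN
  have hq : 1 < q N e := one_lt_q hN
  have hKD := one_le_KD (e := e) hN
  rcases le_or_gt ((q N e) ^ n) X with hc | hc
  · have h1 : A.card ≤ N ^ n := by
      have := Finset.card_le_univ A
      simpa using this
    have h2 : (1 : ℝ) ≤ KC N e := by
      unfold KC
      have h3 : (1 : ℝ) ≤ 3 ^ (e + 1) := one_le_pow₀ (by norm_num)
      have h4 : (1 : ℝ) ≤ (3 * (KD N e + 2)) ^ (e + 1) := one_le_pow₀ (by linarith)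
      nlinarith
    have h5 : ((N : ℝ) ^ n) ≤ X ^ (2 * (e + 1)) := by
      calc (N : ℝ) ^ n = ((q N e) ^ n) ^ (e + 1) := by
            rw [← q_pow (N := N) (e := e), ← pow_mul, ← pow_mul, mul_comm]
        _ ≤ X ^ (e + 1) := pow_le_pow_left₀ (by positivity) hc _
        _ ≤ X ^ (2 * (e + 1)) := pow_le_pow_right₀ hX (by omega)
    calc (A.card : ℝ) ≤ (N : ℝ) ^ n := by exact_mod_cast h1
      _ ≤ X ^ (2 * (e + 1)) := h5
      _ ≤ KC N e * X ^ (2 * (e + 1)) := le_mul_of_one_le_left (by positivity) h2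
  · -- `g ≠ 0`
    set P : R → (Fin n → Fin N) → Prop := fun g a =>
      ∃ f : R, nu N e b f ≤ X ∧ π ^ n ∣ g * val N π n a - f with hP
    have hsub : A ⊆ ((ball N e b X).filter (fun g => g ≠ 0)).biUnion
        (fun g => Finset.univ.filter (fun a => P g a)) := by
      intro a ha
      obtain ⟨f, g, hfg, hd, hf, hg⟩ := hA a ha
      have hg0 : g ≠ 0 := by
        rintro rfl
        have hf0 : f ≠ 0 := by
          rcases hfg with h1 | h1
          · exact h1
          · exact absurd rfl h1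
        obtain ⟨k, hk⟩ := hd
        have hf' : f = π ^ n * (-k) := by linear_combination -hk
        have hk0 : -k ≠ 0 := by
          intro h1; apply hf0; rw [hf', h1, mul_zero]
        have h2 := one_le_nu (N := N) (b := b) hN hk0
        have h3 := nu_pow_mul h n (-k)
        rw [← hf'] at h3
        have h4 : 0 < (q N e) ^ n := by positivity
        nlinarith
      rw [Finset.mem_biUnion]
      refine ⟨g, ?_, ?_⟩
      · rw [Finset.mem_filter, mem_ball hN (by linarith)]
        exact ⟨hg, hg0⟩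
      · rw [Finset.mem_filter]
        exact ⟨Finset.mem_univ _, f, hf, hd⟩
    have h1 : ∀ g ∈ (ball N e b X).filter (fun g => g ≠ 0),
        (((Finset.univ.filter (fun a => P g a)).card : ℕ) : ℝ) ≤ (3 * ((KD N e + 2) * X)) ^ (e + 1) := by
      intro g hg
      rw [Finset.mem_filter, mem_ball hN (by linarith)] at hg
      exact card_fixed h n hX hg.2 hg.1 _ (fun a ha => (Finset.mem_filter.mp ha).2)
    have h2 : (((ball N e b X).filter (fun g => g ≠ 0)).card : ℝ) ≤ (3 * X) ^ (e + 1) := by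
      refine le_trans ?_ (card_ball_le (b := b) hN hX)
      exact_mod_cast Finset.card_filter_le _ _
    calc (A.card : ℝ) ≤ ((((ball N e b X).filter (fun g => g ≠ 0)).biUnion
        (fun g => Finset.univ.filter (fun a => P g a))).card : ℝ) := by
          exact_mod_cast Finset.card_le_card hsub
      _ ≤ ∑ g ∈ (ball N e b X).filter (fun g => g ≠ 0),
          (((Finset.univ.filter (fun a => P g a)).card : ℕ) : ℝ) := by
          exact_mod_cast Finset.card_biUnion_le
      _ ≤ ∑ _g ∈ (ball N e b X).filter (fun g => g ≠ 0), (3 * ((KD N e + 2) * X)) ^ (e + 1) :=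
          Finset.sum_le_sum h1
      _ = (((ball N e b X).filter (fun g => g ≠ 0)).card : ℝ) * (3 * ((KD N e + 2) * X)) ^ (e + 1) := by
          rw [Finset.sum_const, nsmul_eq_mul]
      _ ≤ (3 * X) ^ (e + 1) * (3 * ((KD N e + 2) * X)) ^ (e + 1) := by
          apply mul_le_mul_of_nonneg_right h2; positivity
      _ = KC N e * X ^ (2 * (e + 1)) := by
          unfold KC
          rw [two_mul, pow_add, mul_pow 3 X, ← mul_assoc 3 (KD N e + 2) X, mul_pow (3 * (KD N e + 2)) X]
          ring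

/-! ### The average -/

omit [IsDomain R] in
lemma ne_zero_of_inv (h : Good N e ε π b) {g : R} (hg : ∃ u : R, π ∣ g * u - 1) : g ≠ 0 := by
  rintro rfl
  obtain ⟨u, hu⟩ := hg
  have hN := h.hN
  have h1 : π ∣ ((-1 : ℤ) : R) := by simpa using hu
  rw [pi_dvd_intCast h] at h1
  have h2 := Int.le_of_dvd (by norm_num) ((dvd_neg (a := (N : ℤ)) (b := 1)).mp (by simpa using h1))
  omega

lemma exists_mu (h : Good N e ε π b) (n : ℕ) (a : Fin n → Fin N) : ∃ μ : ℝ, 1 ≤ μ ∧
    (∃ f g : R, (f ≠ 0 ∨ g ≠ 0) ∧ π ^ n ∣ g * val N π n a - f ∧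
      max (nu N e b f) (nu N e b g) = μ) ∧
    ∀ f g : R, (f ≠ 0 ∨ g ≠ 0) → π ^ n ∣ g * val N π n a - f →
      μ ≤ max (nu N e b f) (nu N e b g) := by
  have hN := h.hN
  obtain ⟨f, g, ⟨h1, h2⟩, h3⟩ := exists_min (b := b) hN
    (fun f g => (f ≠ 0 ∨ g ≠ 0) ∧ π ^ n ∣ g * val N π n a - f)
    ⟨val N π n a, 1, Or.inr one_ne_zero, by simp⟩
  refine ⟨max (nu N e b f) (nu N e b g), ?_, ⟨f, g, h1, h2, rfl⟩,
    fun f' g' hne hd => h3 f' g' ⟨hne, hd⟩⟩
  rcases h1 with h1 | h1
  · exact (one_le_nu hN h1).trans (le_max_left _ _)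
  · exact (one_le_nu hN h1).trans (le_max_right _ _)

/-- the length of a shortest vector -/
noncomputable def mu (h : Good N e ε π b) (n : ℕ) (a : Fin n → Fin N) : ℝ :=
  (exists_mu h n a).choose

/-- its logarithmic size -/
noncomputable def ell (h : Good N e ε π b) (n : ℕ) (a : Fin n → Fin N) : ℝ :=
  (e + 1) * Real.logb N (mu h n a)

lemma mu_spec (h : Good N e ε π b) (n : ℕ) (a : Fin n → Fin N) : 1 ≤ mu h n a ∧
    (∃ f g : R, (f ≠ 0 ∨ g ≠ 0) ∧ π ^ n ∣ g * val N π n a - f ∧
      max (nu N e b f) (nu N e b g) = mu h n a) ∧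
    ∀ f g : R, (f ≠ 0 ∨ g ≠ 0) → π ^ n ∣ g * val N π n a - f →
      mu h n a ≤ max (nu N e b f) (nu N e b g) :=
  (exists_mu h n a).choose_spec

omit [IsDomain R] in
lemma one_lt_cast (h : Good N e ε π b) : (1 : ℝ) < N := by
  have := h.hN
  exact_mod_cast (by omega : 1 < N)

lemma ell_nonneg (h : Good N e ε π b) (n : ℕ) (a : Fin n → Fin N) : 0 ≤ ell h n a := by
  unfold ell
  have h1 := Real.logb_nonneg (one_lt_cast h) (mu_spec h n a).1
  positivity

lemma max_size (h : Good N e ε π b) {φ : R → ℝ} (hφ0 : ∀ x, 0 ≤ φ x)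
    (hφ1 : ∀ x, |φ x - (e + 1) * Real.logb N (nu N e b x)| ≤ 1) {f g : R}
    (hM : 1 ≤ max (nu N e b f) (nu N e b g)) :
    |max (φ f) (φ g) - (e + 1) * Real.logb N (max (nu N e b f) (nu N e b g))| ≤ 1 := by
  have hN := h.hN
  have hN1 := one_lt_cast h
  have he : (0 : ℝ) ≤ (e : ℝ) + 1 := by positivity
  have hmono : ∀ x : R, nu N e b x ≤ max (nu N e b f) (nu N e b g) →
      φ x ≤ (e + 1) * Real.logb N (max (nu N e b f) (nu N e b g)) + 1 := by
    intro x hx
    have h1 := abs_le.mp (hφ1 x)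
    have h2 : Real.logb N (nu N e b x) ≤ Real.logb N (max (nu N e b f) (nu N e b g)) := by
      rcases eq_or_lt_of_le (nu_nonneg (N := N) (b := b) x) with h0 | h0
      · rw [← h0, Real.logb_zero]
        exact Real.logb_nonneg hN1 hM
      · exact Real.logb_le_logb_of_le hN1 h0 hx
    have h3 := mul_le_mul_of_nonneg_left h2 he
    linarith [h1.2]
  rw [abs_le]
  constructor
  · rcases le_total (nu N e b f) (nu N e b g) with hle | hle
    · rw [max_eq_right hle]
      have h1 := abs_le.mp (hφ1 g)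
      have h2 := le_max_right (φ f) (φ g)
      linarith [h1.1]
    · rw [max_eq_left hle]
      have h1 := abs_le.mp (hφ1 f)
      have h2 := le_max_left (φ f) (φ g)
      linarith [h1.1]
  · have h1 := hmono f (le_max_left _ _)
    have h2 := hmono g (le_max_right _ _)
    have h3 := max_le h1 h2
    linarith

lemma fin_lower (h : Good N e ε π b) {φ : R → ℝ} (hφ0 : ∀ x, 0 ≤ φ x)
    (hφ1 : ∀ x, |φ x - (e + 1) * Real.logb N (nu N e b x)| ≤ 1) (n : ℕ) (a : Fin n → Fin N) :
    ell h n a - 1 ≤ finComplexity N n π φ a := by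
  have hN := h.hN
  have hN1 := one_lt_cast h
  unfold finComplexity
  apply le_csInf
  · obtain ⟨s, hs, hsa⟩ := exists_outputs h (n := n) (a := a) (f := val N π n a) (g := 1)
      ⟨1, by simp⟩ (by simp)
    exact ⟨_, val N π n a, 1, s, hs, hsa, rfl⟩
  · rintro x ⟨f, g, s, hs, hsa, rfl⟩
    obtain ⟨hg, hd⟩ := valid_of_outputs hs hsa
    have hg0 := ne_zero_of_inv h hg
    obtain ⟨h1, _, h3⟩ := mu_spec h n a
    have h4 := h3 f g (Or.inr hg0) hd
    have h5 := abs_le.mp (max_size h hφ0 hφ1 (h1.trans h4))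
    have h6 : Real.logb N (mu h n a) ≤ Real.logb N (max (nu N e b f) (nu N e b g)) :=
      Real.logb_le_logb_of_le hN1 (by linarith) h4
    have h7 : ell h n a ≤ (e + 1) * Real.logb N (max (nu N e b f) (nu N e b g)) := by
      unfold ell
      exact mul_le_mul_of_nonneg_left h6 (by positivity)
    linarith [h5.1]

lemma KT_pos (h : Good N e ε π b) : 0 < KT N e := by
  have hN := h.hN
  have hN1 := one_lt_cast h
  have hq : 1 < q N e := one_lt_q hN
  unfold KT
  positivity

lemma fin_upper (h : Good N e ε π b) {φ : R → ℝ} (hφ0 : ∀ x, 0 ≤ φ x)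
    (hφ1 : ∀ x, |φ x - (e + 1) * Real.logb N (nu N e b x)| ≤ 1) (n : ℕ) (a : Fin n → Fin N) :
    finComplexity N n π φ a ≤
      (e + 1) * Real.logb N (KT N e) + 1 + ((e + 1) * n - (2 * e + 1) * ell h n a) := by
  have hN := h.hN
  have hN1 := one_lt_cast h
  obtain ⟨h1, _, h3⟩ := mu_spec h n a
  obtain ⟨f, g, hd, hg1, hle⟩ := exists_small_valid h n (val N π n a) (mu h n a) h1 h3
  have hg : ∃ u : R, π ∣ g * u - 1 := ⟨1, by simpa using hg1⟩
  have hg0 := ne_zero_of_inv h hg
  obtain ⟨s, hs, hsa⟩ := exists_outputs h hg hd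
  have h4 : finComplexity N n π φ a ≤ max (φ f) (φ g) := by
    unfold finComplexity
    apply csInf_le
    · refine ⟨0, ?_⟩
      rintro x ⟨f, g, s, hs, hsa, rfl⟩
      exact (hφ0 f).trans (le_max_left _ _)
    · exact ⟨f, g, s, hs, hsa, rfl⟩
  set M := max (nu N e b f) (nu N e b g) with hM
  have hM1 : 1 ≤ M := (one_le_nu hN hg0).trans (le_max_right _ _)
  have h5 := abs_le.mp (max_size h hφ0 hφ1 hM1)
  rw [← hM] at h5
  have hKT := KT_pos h
  have h6 : Real.logb N M + (2 * e + 1) * Real.logb N (mu h n a) ≤ Real.logb N (KT N e) + n := by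
    have h7 : Real.logb N (M * mu h n a ^ (2 * e + 1)) ≤ Real.logb N (KT N e * (N : ℝ) ^ n) :=
      Real.logb_le_logb_of_le hN1 (by positivity) hle
    rw [Real.logb_mul (by positivity) (by positivity), Real.logb_mul (by positivity) (by positivity),
      Real.logb_pow, Real.logb_pow, Real.logb_self_eq_one hN1] at h7
    push_cast at h7
    linarith
  have h8 : ((e : ℝ) + 1) * Real.logb N M ≤
      (e + 1) * Real.logb N (KT N e) + ((e + 1) * n - (2 * e + 1) * ell h n a) := by
    have h9 := mul_le_mul_of_nonneg_left h6 (show (0 : ℝ) ≤ (e : ℝ) + 1 by positivity)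
    unfold ell
    nlinarith [h9]
  linarith [h5.2]

lemma sum_deficit (h : Good N e ε π b) (n : ℕ) :
    ∑ a : Fin n → Fin N, max 0 ((n : ℝ) / 2 - ell h n a) ≤ 2 * KC N e * (N : ℝ) ^ n := by
  classical
  have hN := h.hN
  have hN1 := one_lt_cast h
  have hN0 : (0 : ℝ) < N := by linarith
  have hq : 1 < q N e := one_lt_q hN
  have hKC : 0 ≤ KC N e := by
    have := one_le_KD (e := e) hN
    unfold KC; positivity
  have he : (0 : ℝ) < (e : ℝ) + 1 := by positivity
  -- pointwise
  have h1 : ∀ a : Fin n → Fin N, max 0 ((n : ℝ) / 2 - ell h n a) ≤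
      ∑ j ∈ range (n + 1), (if ell h n a ≤ (n : ℝ) / 2 - j then (1 : ℝ) else 0) := by
    intro a
    have hs0 : (0 : ℝ) ≤ ∑ j ∈ range (n + 1), (if ell h n a ≤ (n : ℝ) / 2 - j then (1 : ℝ) else 0) :=
      Finset.sum_nonneg (fun j _ => by split_ifs <;> norm_num)
    apply max_le hs0
    set t := (n : ℝ) / 2 - ell h n a with ht
    rcases lt_or_ge t 0 with htn | htp
    · linarith
    · have hfl : ⌊t⌋₊ ≤ n := by
        have h2 : (⌊t⌋₊ : ℝ) ≤ t := Nat.floor_le htp
        have h3 := ell_nonneg h n a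
        have h4 : (⌊t⌋₊ : ℝ) ≤ (n : ℝ) := by
          have : (0 : ℝ) ≤ n := Nat.cast_nonneg n
          linarith
        exact_mod_cast h4
      calc t ≤ (⌊t⌋₊ : ℝ) + 1 := (Nat.lt_floor_add_one t).le
        _ = ∑ j ∈ range (⌊t⌋₊ + 1), (1 : ℝ) := by simp
        _ = ∑ j ∈ range (⌊t⌋₊ + 1), (if ell h n a ≤ (n : ℝ) / 2 - j then (1 : ℝ) else 0) := by
            refine Finset.sum_congr rfl (fun j hj => ?_)
            rw [Finset.mem_range] at hj
            have h5 : (j : ℝ) ≤ ⌊t⌋₊ := by exact_mod_cast (by omega : j ≤ ⌊t⌋₊)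
            have h6 : (⌊t⌋₊ : ℝ) ≤ t := Nat.floor_le htp
            rw [if_pos (by linarith)]
        _ ≤ _ := by
            apply Finset.sum_le_sum_of_subset_of_nonneg
            · intro j hj
              rw [Finset.mem_range] at hj ⊢
              omega
            · intro j _ _
              split_ifs <;> norm_num
  have h2 : ∀ j ∈ range (n + 1), ∑ a : Fin n → Fin N,
      (if ell h n a ≤ (n : ℝ) / 2 - j then (1 : ℝ) else 0) ≤ KC N e * (N : ℝ) ^ n * (1 / 2) ^ j := by
    intro j _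
    rw [Finset.sum_boole]
    rcases lt_or_ge ((n : ℝ) / 2 - j) 0 with hneg | hpos
    · have h3 : Finset.univ.filter (fun a : Fin n → Fin N => ell h n a ≤ (n : ℝ) / 2 - j) = ∅ := by
        apply Finset.filter_eq_empty_iff.mpr
        intro a _ hcon
        have := ell_nonneg h n a
        linarith
      rw [h3]
      simp only [Finset.card_empty, Nat.cast_zero]
      positivity
    · set y := (n : ℝ) / 2 - j with hy
      set X := (N : ℝ) ^ (y / ((e : ℝ) + 1)) with hX
      have hX1 : 1 ≤ X := Real.one_le_rpow hN1.le (by positivity)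
      have h4 := card_short h n hX1 (Finset.univ.filter (fun a : Fin n → Fin N => ell h n a ≤ y)) (by
        intro a ha
        have ha' := (Finset.mem_filter.mp ha).2
        obtain ⟨h5, ⟨f, g, hfg, hd, hmax⟩, _⟩ := mu_spec h n a
        have h6 : mu h n a ≤ X := by
          unfold ell at ha'
          have h7 : Real.logb N (mu h n a) ≤ y / ((e : ℝ) + 1) := by
            rw [le_div_iff₀ he]; linarith
          rw [Real.logb_le_iff_le_rpow hN1 (by linarith)] at h7
          exact h7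
        refine ⟨f, g, hfg, hd, ?_, ?_⟩
        · exact (le_max_left _ _).trans (hmax.le.trans h6)
        · exact (le_max_right _ _).trans (hmax.le.trans h6))
      refine h4.trans ?_
      have h8 : X ^ (2 * (e + 1)) = (N : ℝ) ^ n * ((N : ℝ) ^ (2 * j))⁻¹ := by
        rw [hX, ← Real.rpow_natCast, ← Real.rpow_mul hN0.le]
        have e1 : y / ((e : ℝ) + 1) * ((2 * (e + 1) : ℕ) : ℝ) = (n : ℝ) - ((2 * j : ℕ) : ℝ) := by
          push_cast
          rw [hy]
          field_simp
        rw [e1, Real.rpow_sub hN0, Real.rpow_natCast, Real.rpow_natCast, div_eq_mul_inv]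
      rw [h8]
      have h9 : ((N : ℝ) ^ (2 * j))⁻¹ ≤ (1 / 2) ^ j := by
        rw [one_div, inv_pow]
        apply inv_anti₀ (by positivity)
        have h10 : (2 : ℝ) ≤ N := by exact_mod_cast hN
        calc (2 : ℝ) ^ j ≤ (N : ℝ) ^ j := pow_le_pow_left₀ (by norm_num) h10 _
          _ ≤ (N : ℝ) ^ (2 * j) := pow_le_pow_right₀ hN1.le (by omega)
      calc KC N e * ((N : ℝ) ^ n * ((N : ℝ) ^ (2 * j))⁻¹)
          = KC N e * (N : ℝ) ^ n * ((N : ℝ) ^ (2 * j))⁻¹ := by ring
        _ ≤ _ := mul_le_mul_of_nonneg_left h9 (by positivity)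
  calc ∑ a : Fin n → Fin N, max 0 ((n : ℝ) / 2 - ell h n a)
      ≤ ∑ a : Fin n → Fin N, ∑ j ∈ range (n + 1),
          (if ell h n a ≤ (n : ℝ) / 2 - j then (1 : ℝ) else 0) := Finset.sum_le_sum (fun a _ => h1 a)
    _ = ∑ j ∈ range (n + 1), ∑ a : Fin n → Fin N,
          (if ell h n a ≤ (n : ℝ) / 2 - j then (1 : ℝ) else 0) := Finset.sum_comm
    _ ≤ ∑ j ∈ range (n + 1), KC N e * (N : ℝ) ^ n * (1 / 2) ^ j := Finset.sum_le_sum h2
    _ = KC N e * (N : ℝ) ^ n * ∑ j ∈ range (n + 1), (1 / 2 : ℝ) ^ j := by rw [Finset.mul_sum]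
    _ ≤ KC N e * (N : ℝ) ^ n * 2 :=
        mul_le_mul_of_nonneg_left (sum_geometric_two_le _) (by positivity)
    _ = _ := by ring

/-- The core estimate for both cases. -/
theorem core (h : Good N e ε π b) {φ : R → ℝ} (hφ0 : ∀ x, 0 ≤ φ x)
    (hφ1 : ∀ x, |φ x - (e + 1) * Real.logb N (nu N e b x)| ≤ 1) :
    ∃ C : ℝ, ∀ n : ℕ, |avgFin N π φ n - n / 2| ≤ C := by
  classical
  have hN := h.hN
  have hN1 := one_lt_cast h
  have hN0 : (0 : ℝ) < N := by linarith
  have hKC : 0 ≤ KC N e := by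
    have := one_le_KD (e := e) hN
    unfold KC; positivity
  refine ⟨|(e + 1) * Real.logb N (KT N e)| + 1 + (2 * e + 1) * (2 * KC N e), fun n => ?_⟩
  have hNn : (0 : ℝ) < (N : ℝ) ^ n := by positivity
  have hcard : (∑ _a : Fin n → Fin N, (1 : ℝ)) = (N : ℝ) ^ n := by simp
  have hdef := sum_deficit h n
  have hlow : (∑ a : Fin n → Fin N, ((n : ℝ) / 2 - 1 - max 0 ((n : ℝ) / 2 - ell h n a))) ≤
      ∑ a : Fin n → Fin N, finComplexity N n π φ a := by
    apply Finset.sum_le_sum
    intro a _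
    have h1 := fin_lower h hφ0 hφ1 n a
    have h2 := le_max_right 0 ((n : ℝ) / 2 - ell h n a)
    linarith
  have hup : (∑ a : Fin n → Fin N, finComplexity N n π φ a) ≤
      ∑ a : Fin n → Fin N, (((e + 1) * Real.logb N (KT N e) + 1 + (n : ℝ) / 2) +
        (2 * e + 1) * max 0 ((n : ℝ) / 2 - ell h n a)) := by
    apply Finset.sum_le_sum
    intro a _
    have h1 := fin_upper h hφ0 hφ1 n a
    have h2 := le_max_right 0 ((n : ℝ) / 2 - ell h n a)
    have h3 : (0 : ℝ) ≤ 2 * (e : ℝ) + 1 := by positivity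
    have h4 := mul_le_mul_of_nonneg_left h2 h3
    nlinarith [h4]
  rw [Finset.sum_sub_distrib, Finset.sum_const, nsmul_eq_mul] at hlow
  rw [Finset.sum_add_distrib, Finset.sum_const, nsmul_eq_mul, ← Finset.mul_sum] at hup
  have hc2 : ((Finset.univ : Finset (Fin n → Fin N)).card : ℝ) = (N : ℝ) ^ n := by simp
  rw [hc2] at hlow hup
  have he : (0 : ℝ) ≤ 2 * (e : ℝ) + 1 := by positivity
  have hdef2 := mul_le_mul_of_nonneg_left hdef he
  have habs := le_abs_self ((e + 1) * Real.logb N (KT N e))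
  have habs0 := abs_nonneg ((e + 1) * Real.logb N (KT N e))
  unfold avgFin
  rw [abs_le]
  constructor
  · have h5 : (N : ℝ) ^ n * ((n : ℝ) / 2 - 1 - 2 * KC N e) ≤
        ∑ a : Fin n → Fin N, finComplexity N n π φ a := by
      nlinarith [hlow, hdef]
    have h6 : (n : ℝ) / 2 - 1 - 2 * KC N e ≤
        (∑ a : Fin n → Fin N, finComplexity N n π φ a) / (N : ℝ) ^ n := by
      rw [le_div_iff₀ hNn]; linarith
    have h7 : 2 * KC N e ≤ (2 * e + 1) * (2 * KC N e) := by
      have : (1 : ℝ) ≤ 2 * (e : ℝ) + 1 := by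
        have : (0 : ℝ) ≤ e := Nat.cast_nonneg e
        linarith
      nlinarith
    linarith
  · have h5 : (∑ a : Fin n → Fin N, finComplexity N n π φ a) ≤
        (N : ℝ) ^ n * ((e + 1) * Real.logb N (KT N e) + 1 + (n : ℝ) / 2 + (2 * e + 1) * (2 * KC N e)) := by
      nlinarith [hup, hdef2]
    have h6 : (∑ a : Fin n → Fin N, finComplexity N n π φ a) / (N : ℝ) ^ n ≤
        (e + 1) * Real.logb N (KT N e) + 1 + (n : ℝ) / 2 + (2 * e + 1) * (2 * KC N e) := by
      rw [div_le_iff₀ hNn]; linarith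
    linarith

end division

/-! ### The least size is attained -/

section attained
variable {R : Type*} [CommRing R] [IsDomain R] {N e : ℕ} {ε : ℤ} {π : R}
  {b : Module.Basis (Fin (e + 1)) ℤ R}

/-- The infimum in the definition of `finComplexity` is a minimum. -/
theorem attained (h : Good N e ε π b) {φ : R → ℝ} (hφ0 : ∀ x, 0 ≤ φ x)
    (hφ1 : ∀ x, |φ x - (e + 1) * Real.logb N (nu N e b x)| ≤ 1) (n : ℕ) (a : Fin n → Fin N) :
    ∃ (f g : R) (s : ℕ → Fin N), Outputs N π f g s ∧ (∀ i : Fin n, s i = a i) ∧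
      finComplexity N n π φ a = max (φ f) (φ g) := by
  classical
  have hN := h.hN
  have hN1 := one_lt_cast h
  have he : (0 : ℝ) < (e : ℝ) + 1 := by positivity
  obtain ⟨s₀, hs₀, hsa₀⟩ := exists_outputs h (n := n) (a := a) (f := val N π n a) (g := 1)
      ⟨1, by simp⟩ (by simp)
  set f₀ := val N π n a with hf₀
  set P : R → R → Prop := fun f g => ∃ s : ℕ → Fin N, Outputs N π f g s ∧ ∀ i : Fin n, s i = a i
    with hP
  set x₀ := max (φ f₀) (φ 1) with hx₀
  have hx₀0 : 0 ≤ x₀ := (hφ0 _).trans (le_max_left _ _)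
  set r := max (max (nu N e b f₀) (nu N e b 1)) ((N : ℝ) ^ ((x₀ + 1) / ((e : ℝ) + 1))) with hr
  have hr0 : 0 ≤ r := by
    refine le_trans ?_ (le_max_right _ _)
    positivity
  set S : Finset (R × R) := ((ball N e b r) ×ˢ (ball N e b r)).filter (fun v => P v.1 v.2) with hS
  have hne : (f₀, (1 : R)) ∈ S := by
    rw [hS, Finset.mem_filter, Finset.mem_product]
    exact ⟨⟨(mem_ball hN hr0).mpr ((le_max_left _ _).trans (le_max_left _ _)),
      (mem_ball hN hr0).mpr ((le_max_right _ _).trans (le_max_left _ _))⟩, s₀, hs₀, hsa₀⟩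
  obtain ⟨v, hv, hmin⟩ := Finset.exists_min_image S (fun v => max (φ v.1) (φ v.2)) ⟨_, hne⟩
  obtain ⟨s, hs, hsa⟩ := (Finset.mem_filter.mp hv).2
  refine ⟨v.1, v.2, s, hs, hsa, ?_⟩
  have hleast : IsLeast {x : ℝ | ∃ (f g : R) (s : ℕ → Fin N), Outputs N π f g s ∧
      (∀ i : Fin n, s i = a i) ∧ x = max (φ f) (φ g)} (max (φ v.1) (φ v.2)) := by
    constructor
    · exact ⟨v.1, v.2, s, hs, hsa, rfl⟩
    · rintro x ⟨f, g, s', hs', hsa', rfl⟩
      by_cases hle : max (nu N e b f) (nu N e b g) ≤ r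
      · apply hmin (f, g)
        rw [hS, Finset.mem_filter, Finset.mem_product]
        exact ⟨⟨(mem_ball hN hr0).mpr ((le_max_left _ _).trans hle),
          (mem_ball hN hr0).mpr ((le_max_right _ _).trans hle)⟩, s', hs', hsa'⟩
      · push Not at hle
        have h1 : max (φ v.1) (φ v.2) ≤ x₀ := hmin _ hne
        have hg0 := ne_zero_of_inv h hs'.1
        have hM1 : 1 ≤ max (nu N e b f) (nu N e b g) := (one_le_nu hN hg0).trans (le_max_right _ _)
        have h2 := abs_le.mp (max_size h hφ0 hφ1 hM1)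
        have h3 : (x₀ + 1) / ((e : ℝ) + 1) ≤ Real.logb N (max (nu N e b f) (nu N e b g)) := by
          rw [Real.le_logb_iff_rpow_le hN1 (by linarith)]
          exact (le_max_right _ _).trans hle.le
        rw [div_le_iff₀ he] at h3
        show max (φ v.1) (φ v.2) ≤ max (φ f) (φ g)
        linarith [h2.1]
  unfold finComplexity
  exact hleast.csInf_eq

end attained

/-! ### The two size functions -/

section cases
variable {R : Type*} [CommRing R] {N : ℕ}

lemma exists_nu_eq {e : ℕ} (hN : 2 ≤ N) (b : Module.Basis (Fin (e + 1)) ℤ R) (x : R) :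
    ∃ i, nu N e b x = |(b.repr x i : ℝ)| * (q N e) ^ (i : ℕ) := by
  have hq : 1 < q N e := one_lt_q hN
  obtain ⟨i, _, hi⟩ := Finset.exists_max_image (Finset.univ : Finset (Fin (e + 1)))
    (fun i => |(b.repr x i : ℝ)| * (q N e) ^ (i : ℕ)) ⟨0, Finset.mem_univ _⟩
  refine ⟨i, le_antisymm ?_ (coord_le_nu hN x i)⟩
  rw [nu_le_iff hN (by positivity)]
  exact fun j => hi j (Finset.mem_univ _)

lemma phiRoot_eq {e : ℕ} (hN : 2 ≤ N) (b : Module.Basis (Fin (e + 1)) ℤ R) (x : R) :
    phiRoot N (e + 1) b x = (e + 1) * Real.logb N (nu N e b x) := by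
  have hq : 1 < q N e := one_lt_q hN
  have hN1 : (1 : ℝ) < N := by exact_mod_cast (by omega : 1 < N)
  rcases eq_or_ne x 0 with rfl | hx
  · rw [nu_zero, Real.logb_zero, mul_zero]
    unfold phiRoot
    have : {y : ℝ | ∃ i : Fin (e + 1), b.repr (0 : R) i ≠ 0 ∧
        y = ((e + 1 : ℕ) : ℝ) * Real.logb N |(b.repr (0 : R) i : ℝ)| + (i : ℕ)} = ∅ := by
      ext y
      simp
    rw [this, Real.sSup_empty]
  · have hterm : ∀ i : Fin (e + 1), b.repr x i ≠ 0 →
        ((e + 1 : ℕ) : ℝ) * Real.logb N |(b.repr x i : ℝ)| + (i : ℕ) =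
        (e + 1) * Real.logb N (|(b.repr x i : ℝ)| * (q N e) ^ (i : ℕ)) := by
      intro i hi
      have h1 : (b.repr x i : ℝ) ≠ 0 := by exact_mod_cast hi
      have h2 : Real.logb N (q N e) = 1 / ((e : ℝ) + 1) := by
        unfold q
        rw [Real.logb_rpow (by linarith) (by linarith)]
        push_cast; rfl
      rw [Real.logb_mul (abs_ne_zero.mpr h1) (by positivity), Real.logb_pow, h2]
      push_cast
      field_simp
    obtain ⟨i, hi⟩ := exists_nu_eq hN b x
    have hnu := one_le_nu (b := b) hN hx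
    have hi0 : b.repr x i ≠ 0 := by
      intro h0
      rw [h0] at hi
      simp at hi
      linarith
    unfold phiRoot
    apply IsGreatest.csSup_eq
    constructor
    · exact ⟨i, hi0, by rw [hterm i hi0, hi]⟩
    · rintro y ⟨j, hj, rfl⟩
      rw [hterm j hj]
      have h1 := coord_le_nu (b := b) hN x j
      have h2 : (0 : ℝ) < |(b.repr x j : ℝ)| * (q N e) ^ (j : ℕ) := by
        have : (b.repr x j : ℝ) ≠ 0 := by exact_mod_cast hj
        have := abs_pos.mpr this
        positivity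
      exact mul_le_mul_of_nonneg_left (Real.logb_le_logb_of_le hN1 h2 h1) (by positivity)

lemma logb_nu_nonneg {e : ℕ} (hN : 2 ≤ N) (b : Module.Basis (Fin (e + 1)) ℤ R) (x : R) :
    0 ≤ Real.logb N (nu N e b x) := by
  have hN1 : (1 : ℝ) < N := by exact_mod_cast (by omega : 1 < N)
  rcases eq_or_ne x 0 with rfl | hx
  · rw [nu_zero, Real.logb_zero]
  · exact Real.logb_nonneg hN1 (one_le_nu hN hx)

lemma phiImag_near (hN : 2 ≤ N) (b : Module.Basis (Fin (1 + 1)) ℤ R) (x : R) :
    2 * Real.logb N (nu N 1 b x) ≤ phiImag N b x ∧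
      phiImag N b x ≤ 2 * Real.logb N (nu N 1 b x) + 1 := by
  have hN1 : (1 : ℝ) < N := by exact_mod_cast (by omega : 1 < N)
  have hN2 : (2 : ℝ) ≤ N := by exact_mod_cast hN
  have hq : 1 < q N 1 := one_lt_q hN
  have hqq : (q N 1) ^ 2 = N := q_pow (N := N) (e := 1)
  rcases eq_or_ne x 0 with rfl | hx
  · unfold phiImag
    rw [nu_zero]
    simp
  · have hnu := one_le_nu (b := b) hN hx
    have h0 := coord_le_nu (b := b) hN x 0
    have h1 := coord_le_nu (b := b) hN x 1
    rw [Fin.val_zero, pow_zero, mul_one] at h0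
    have hv1 : ((1 : Fin (1 + 1)) : ℕ) = 1 := rfl
    rw [hv1, pow_one] at h1
    obtain ⟨i, hi⟩ := exists_nu_eq hN b x
    set u : ℝ := (b.repr x 0 : ℝ) with hu
    set v : ℝ := (b.repr x 1 : ℝ) with hv
    set M := nu N 1 b x with hM
    have hsq0 : u ^ 2 ≤ M ^ 2 := by
      rw [← sq_abs u]; exact pow_le_pow_left₀ (abs_nonneg _) h0 2
    have hsq1 : (N : ℝ) * v ^ 2 ≤ M ^ 2 := by
      have := pow_le_pow_left₀ (by positivity) h1 2
      rw [mul_pow, sq_abs, hqq] at this
      linarith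
    have hlow : M ^ 2 ≤ u ^ 2 + N * v ^ 2 := by
      fin_cases i
      · simp only [Fin.zero_eta, pow_zero, mul_one] at hi
        rw [hi, ← hu, sq_abs]
        have : 0 ≤ (N : ℝ) * v ^ 2 := by positivity
        linarith
      · have hi' : M = |v| * q N 1 := by
          have : M = |(b.repr x 1 : ℝ)| * q N 1 ^ ((1 : Fin (1 + 1)) : ℕ) := hi
          rw [hv1, pow_one] at this
          exact this
        rw [hi', mul_pow, sq_abs, hqq]
        nlinarith [sq_nonneg u]
    have hdefn : phiImag N b x = Real.logb N (u ^ 2 + N * v ^ 2) := rfl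
    have hM2 : Real.logb N (M ^ 2) = 2 * Real.logb N M := by
      rw [Real.logb_pow]; norm_num
    rw [hdefn]
    constructor
    · rw [← hM2]
      exact Real.logb_le_logb_of_le hN1 (by positivity) hlow
    · have h5 : u ^ 2 + N * v ^ 2 ≤ M ^ 2 * N := by
        have : 0 ≤ M ^ 2 := by positivity
        nlinarith
      have h6 : 0 < u ^ 2 + N * v ^ 2 := by
        have : 0 < M ^ 2 := by positivity
        linarith
      have h7 := Real.logb_le_logb_of_le hN1 h6 h5
      rw [Real.logb_mul (by positivity) (by linarith), Real.logb_self_eq_one hN1, hM2] at h7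
      exact h7

end cases

/-- In both cases the least size in the definition of `finComplexity` is attained. -/
theorem finComplexity_attained (N : ℕ) (hN : 2 ≤ N) :
    (∀ (R : Type*) [CommRing R] [IsDomain R] (π : R) (b : Module.Basis (Fin 2) ℤ R),
      b 0 = 1 → b 1 = π → π ^ 2 = -(N : R) → ∀ (n : ℕ) (a : Fin n → Fin N),
      ∃ (f g : R) (s : ℕ → Fin N), Outputs N π f g s ∧ (∀ i : Fin n, s i = a i) ∧
        finComplexity N n π (phiImag N b) a = max (phiImag N b f) (phiImag N b g)) ∧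
    (∀ (d : ℕ) (R : Type*) [CommRing R] [IsDomain R] (π : R) (b : Module.Basis (Fin d) ℤ R),
      1 ≤ d → (∀ i, b i = π ^ (i : ℕ)) → π ^ d = (N : R) → ∀ (n : ℕ) (a : Fin n → Fin N),
      ∃ (f g : R) (s : ℕ → Fin N), Outputs N π f g s ∧ (∀ i : Fin n, s i = a i) ∧
        finComplexity N n π (phiRoot N d b) a = max (phiRoot N d b f) (phiRoot N d b g)) := by
  constructor
  · intro R _ _ π b hb0 hb1 hπ
    have h : Good N 1 (-1) π b := by
      refine ⟨hN, by norm_num, ?_, ?_⟩
      · intro i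
        fin_cases i
        · simpa using hb0
        · simpa using hb1
      · rw [hπ]; push_cast; ring
    refine attained h (φ := phiImag N b) (fun x => ?_) (fun x => ?_)
    · have h1 := (phiImag_near hN b x).1
      have h2 := logb_nu_nonneg hN b x
      linarith
    · have h1 := phiImag_near hN b x
      push_cast
      rw [abs_le]
      constructor <;> linarith [h1.1, h1.2]
  · intro d R _ _ π b hd hb hπ
    obtain ⟨e, rfl⟩ : ∃ e, d = e + 1 := ⟨d - 1, by omega⟩
    have h : Good N e 1 π b := by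
      refine ⟨hN, by norm_num, hb, ?_⟩
      rw [hπ]; push_cast; ring
    refine attained h (φ := phiRoot N (e + 1) b) (fun x => ?_) (fun x => ?_)
    · rw [phiRoot_eq hN b x]
      have := logb_nu_nonneg hN b x
      positivity
    · rw [phiRoot_eq hN b x]
      simp

/-- **Average finite `π`-adic complexity.**  Let `N ≥ 2`.

Case (i): if `R = ℤ[π]` is an integral domain with `ℤ`-basis `1, π` and `π² = -N`, and sizes are
measured by `φ(u + vπ) = log_N (u² + N v²)`, then `E_n^fin = n/2 + O(1)`.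

Case (ii): if `d ≥ 1` and `R = ℤ[π]` is an integral domain with `ℤ`-basis `1, π, …, π^{d-1}` and
`π^d = N`, and sizes are measured by `φ(∑ u_i π^i) = max_i (d log_N |u_i| + i)`, then
`E_n^fin = n/2 + O(1)`. -/
theorem result (N : ℕ) (hN : 2 ≤ N) :
    (∀ (R : Type*) [CommRing R] [IsDomain R] (π : R) (b : Module.Basis (Fin 2) ℤ R),
      b 0 = 1 → b 1 = π → π ^ 2 = -(N : R) →
      ∃ C : ℝ, ∀ n : ℕ, |avgFin N π (phiImag N b) n - (n : ℝ) / 2| ≤ C) ∧
    (∀ (d : ℕ) (R : Type*) [CommRing R] [IsDomain R] (π : R) (b : Module.Basis (Fin d) ℤ R),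
      1 ≤ d → (∀ i, b i = π ^ (i : ℕ)) → π ^ d = (N : R) →
      ∃ C : ℝ, ∀ n : ℕ, |avgFin N π (phiRoot N d b) n - (n : ℝ) / 2| ≤ C) := by
  constructor
  · intro R _ _ π b hb0 hb1 hπ
    have h : Good N 1 (-1) π b := by
      refine ⟨hN, by norm_num, ?_, ?_⟩
      · intro i
        fin_cases i
        · simpa using hb0
        · simpa using hb1
      · rw [hπ]; push_cast; ring
    refine core h (φ := phiImag N b) (fun x => ?_) (fun x => ?_)
    · have h1 := (phiImag_near hN b x).1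
      have h2 := logb_nu_nonneg hN b x
      linarith
    · have h1 := phiImag_near hN b x
      push_cast
      rw [abs_le]
      constructor <;> linarith [h1.1, h1.2]
  · intro d R _ _ π b hd hb hπ
    obtain ⟨e, rfl⟩ : ∃ e, d = e + 1 := ⟨d - 1, by omega⟩
    have h : Good N e 1 π b := by
      refine ⟨hN, by norm_num, hb, ?_⟩
      rw [hπ]; push_cast; ring
    refine core h (φ := phiRoot N (e + 1) b) (fun x => ?_) (fun x => ?_)
    · rw [phiRoot_eq hN b x]
      have := logb_nu_nonneg hN b x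
      positivity
    · rw [phiRoot_eq hN b x]
      simp

end Pool.Agent.Results.MP_cc6759_lc.PiAdicAverage
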